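import Mathlib

set_option autoImplicit false

open Filter Topology

namespace Pool.Agent.H130R3.Am

/-- heap weights -/
noncomputable def Lam (i : ℕ) : ℝ := if i = 0 then 0 else (1/2 : ℝ) ^ (Nat.log 2 i)

theorem Lam_nonneg (i : ℕ) : 0 ≤ Lam i := by
  unfold Lam
  split_ifs
  · exact le_rfl
  · positivity

theorem Lam_double (j b : ℕ) (hj : 1 ≤ j) (hb : b < 2) : Lam (2 * j + b) = Lam j / 2 := by
  unfold Lam
  rw [if_neg (by omega), if_neg (by omega)]
  have h1 : Nat.log 2 (2 * j + b) = Nat.log 2 j + 1 := by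
    have h2 : (2 * j + b) / 2 = j := by omega
    rw [Nat.log_of_one_lt_of_le (by norm_num) (by omega), h2]
  rw [h1, pow_succ]
  ring

theorem Lam_block (j : ℕ) : ∑ i ∈ Finset.Ico (2 ^ j) (2 ^ (j + 1)), Lam i = 1 := by
  have h1 : ∀ i ∈ Finset.Ico (2 ^ j) (2 ^ (j + 1)), Lam i = (1/2 : ℝ) ^ j := by
    intro i hi
    rw [Finset.mem_Ico] at hi
    unfold Lam
    have h2 : 0 < 2 ^ j := by positivity
    rw [if_neg (by omega), Nat.log_eq_of_pow_le_of_lt_pow hi.1 hi.2]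
  rw [Finset.sum_congr rfl h1, Finset.sum_const, Nat.card_Ico, nsmul_eq_mul, pow_succ]
  have h3 : 2 ^ j * 2 - 2 ^ j = 2 ^ j := by omega
  rw [h3]
  push_cast
  rw [← mul_pow]
  norm_num

theorem Lam_total (n : ℕ) : ∑ i ∈ Finset.range (2 ^ (n + 1)), Lam i = n + 1 := by
  induction n with
  | zero =>
    simp [Finset.sum_range_succ, Lam]
  | succ n ih =>
    rw [← Finset.sum_range_add_sum_Ico Lam (show 2 ^ (n + 1) ≤ 2 ^ (n + 1 + 1) by
      apply Nat.pow_le_pow_right <;> omega), ih, Lam_block]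
    push_cast
    ring

theorem sum_even_odd (φ : ℕ → ℝ) (n : ℕ) (hn : 1 ≤ n) :
    ∑ i ∈ Finset.Ico 2 (2 * n), φ i = ∑ j ∈ Finset.Ico 1 n, (φ (2 * j) + φ (2 * j + 1)) := by
  induction n, hn using Nat.le_induction with
  | base => simp
  | succ n hn ih =>
    rw [Finset.sum_Ico_succ_top hn, ← ih, show 2 * (n + 1) = 2 * n + 1 + 1 by ring,
      Finset.sum_Ico_succ_top (by omega), Finset.sum_Ico_succ_top (by omega)]
    ring

/-- the key estimate on heap averages -/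
theorem heap_estimate (n : ℕ) (φ : Bool → ℕ → ℝ) (hφ : ∀ s i, φ s i ∈ Set.Icc (0:ℝ) 1)
    (ψ : ℕ → ℝ) (hψ1 : ψ 1 ∈ Set.Icc (0:ℝ) 1)
    (hψ : ∀ i, 2 ≤ i → i < 2 ^ (n + 1) → ψ i = φ (decide (i % 2 = 1)) (i / 2)) :
    |∑ i ∈ Finset.range (2 ^ (n + 1)), Lam i * ψ i
      - 1 / 2 * ∑ i ∈ Finset.range (2 ^ (n + 1)), Lam i * (φ true i + φ false i)| ≤ 1 := by
  have hL0 : Lam 0 = 0 := by simp [Lam]
  have hL1 : Lam 1 = 1 := by simp [Lam]
  have hpow : 2 ≤ 2 ^ (n + 1) := by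
    calc 2 = 2 ^ 1 := by norm_num
      _ ≤ 2 ^ (n + 1) := Nat.pow_le_pow_right (by norm_num) (by omega)
  have hpow1 : 1 ≤ 2 ^ n := Nat.one_le_two_pow
  have h1 : ∑ i ∈ Finset.range (2 ^ (n + 1)), Lam i * ψ i
      = ψ 1 + ∑ j ∈ Finset.Ico 1 (2 ^ n), Lam j / 2 * (φ true j + φ false j) := by
    rw [← Finset.sum_range_add_sum_Ico _ hpow, Finset.sum_range_succ, Finset.sum_range_succ,
      Finset.sum_range_zero, hL0, hL1]
    have h2 : ∑ i ∈ Finset.Ico 2 (2 ^ (n + 1)), Lam i * ψ i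
        = ∑ i ∈ Finset.Ico 2 (2 * 2 ^ n), Lam i * φ (decide (i % 2 = 1)) (i / 2) := by
      rw [show 2 ^ (n + 1) = 2 * 2 ^ n by ring]
      refine Finset.sum_congr rfl fun i hi => ?_
      rw [Finset.mem_Ico] at hi
      rw [hψ i hi.1 (by rw [show 2 ^ (n + 1) = 2 * 2 ^ n by ring]; exact hi.2)]
    rw [h2, sum_even_odd _ _ hpow1]
    simp only [zero_mul, one_mul, zero_add]
    congr 1
    refine Finset.sum_congr rfl fun j hj => ?_
    rw [Finset.mem_Ico] at hj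
    have e1 := Lam_double j 0 hj.1 (by norm_num)
    have e2 := Lam_double j 1 hj.1 (by norm_num)
    rw [add_zero] at e1
    rw [e1, e2, show 2 * j % 2 = 0 by omega, show 2 * j / 2 = j by omega,
      show (2 * j + 1) % 2 = 1 by omega, show (2 * j + 1) / 2 = j by omega]
    simp
    ring
  have h3 : 1 / 2 * ∑ i ∈ Finset.range (2 ^ (n + 1)), Lam i * (φ true i + φ false i)
      = ∑ j ∈ Finset.Ico 1 (2 ^ n), Lam j / 2 * (φ true j + φ false j)
        + 1 / 2 * ∑ j ∈ Finset.Ico (2 ^ n) (2 ^ (n + 1)), Lam j * (φ true j + φ false j) := by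
    have h4 : 2 ^ n ≤ 2 ^ (n + 1) := Nat.pow_le_pow_right (by norm_num) (by omega)
    rw [← Finset.sum_range_add_sum_Ico _ h4, ← Finset.sum_range_add_sum_Ico _ hpow1,
      Finset.sum_range_one, hL0, zero_mul, zero_add, mul_add, Finset.mul_sum, Finset.mul_sum]
    congr 1
    refine Finset.sum_congr rfl fun j _ => ?_
    ring
  have h5 : 0 ≤ ∑ j ∈ Finset.Ico (2 ^ n) (2 ^ (n + 1)), Lam j * (φ true j + φ false j) :=
    Finset.sum_nonneg fun j _ => mul_nonneg (Lam_nonneg j) (add_nonneg (hφ _ _).1 (hφ _ _).1)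
  have h6 : ∑ j ∈ Finset.Ico (2 ^ n) (2 ^ (n + 1)), Lam j * (φ true j + φ false j) ≤ 2 := by
    calc _ ≤ ∑ j ∈ Finset.Ico (2 ^ n) (2 ^ (n + 1)), Lam j * 2 :=
          Finset.sum_le_sum fun j _ => mul_le_mul_of_nonneg_left
            (by linarith [(hφ true j).2, (hφ false j).2]) (Lam_nonneg j)
      _ = 2 := by rw [← Finset.sum_mul, Lam_block]; norm_num
  rw [h1, h3, abs_le]
  constructor <;> linarith [hψ1.1, hψ1.2]

/-- the alphabet at place `n` -/
abbrev M (n : ℕ) := Fin (2 ^ (n + 1))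

/-- the permutation -/
theorem exists_gamma (n : ℕ) : ∃ γ : Equiv.Perm (Bool × M n),
    ∀ i : M n, 2 ≤ i.1 → (γ (true, i)).1 = decide (i.1 % 2 = 1) ∧ (γ (true, i)).2.1 = i.1 / 2 := by
  classical
  let f : Bool × M n → Bool × M n := fun p =>
    (decide (p.2.1 % 2 = 1), ⟨p.2.1 / 2, lt_of_le_of_lt (Nat.div_le_self _ _) p.2.2⟩)
  let s : Finset (Bool × M n) := Finset.univ.filter fun p => p.1 = true ∧ 2 ≤ p.2.1
  have hinj : Set.InjOn f s := by
    rintro ⟨a, i⟩ hi ⟨b, j⟩ hj h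
    simp only [s, Finset.coe_filter, Finset.mem_univ, true_and, Set.mem_setOf_eq] at hi hj
    simp only [f, Prod.mk.injEq, Fin.mk.injEq, decide_eq_decide] at h
    rw [hi.1, hj.1]
    congr 1
    apply Fin.ext
    omega
  obtain ⟨g, hg⟩ := Finset.exists_equiv_extend_of_card_eq (α := Bool × M n) (β := Bool × M n)
    (t := Finset.univ) (by simp) (s := s) (f := f) (Finset.subset_univ _) hinj
  refine ⟨g.trans (Equiv.subtypeUnivEquiv (fun x => Finset.mem_univ x)), fun i hi => ?_⟩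
  have h1 : ((g (true, i)) : Bool × M n) = f (true, i) := hg _ (by simp [s, hi])
  have h2 : (g.trans (Equiv.subtypeUnivEquiv (fun x => Finset.mem_univ x))) (true, i) = f (true, i) := h1
  rw [h2]
  exact ⟨rfl, rfl⟩

/-- weights at place `n` -/
noncomputable def nu (n : ℕ) (i : M n) : ℝ := Lam i.1 / (n + 1)

theorem nu_nonneg (n : ℕ) (i : M n) : 0 ≤ nu n i := div_nonneg (Lam_nonneg _) (by positivity)

theorem nu_total (n : ℕ) : ∑ i : M n, nu n i = 1 := by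
  unfold nu
  rw [← Finset.sum_div, Fin.sum_univ_eq_sum_range (fun i => Lam i), Lam_total]
  field_simp

theorem nu_estimate (n : ℕ) (γ : Equiv.Perm (Bool × M n))
    (hγ : ∀ i : M n, 2 ≤ i.1 → (γ (true, i)).1 = decide (i.1 % 2 = 1) ∧ (γ (true, i)).2.1 = i.1 / 2)
    (φ : Bool × M n → ℝ) (hφ : ∀ p, φ p ∈ Set.Icc (0:ℝ) 1) :
    |∑ i : M n, nu n i * φ (γ (true, i))
      - 1 / 2 * (∑ i : M n, nu n i * φ (true, i) + ∑ i : M n, nu n i * φ (false, i))|
      ≤ 1 / (n + 1) := by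
  let φ' : Bool → ℕ → ℝ := fun s i => if h : i < 2 ^ (n + 1) then φ (s, ⟨i, h⟩) else 0
  let ψ : ℕ → ℝ := fun i => if h : i < 2 ^ (n + 1) then φ (γ (true, ⟨i, h⟩)) else 0
  have hφ' : ∀ s i, φ' s i ∈ Set.Icc (0:ℝ) 1 := by
    intro s i
    simp only [φ']
    split_ifs
    · exact hφ _
    · exact ⟨le_rfl, zero_le_one⟩
  have hψ' : ∀ i, ψ i ∈ Set.Icc (0:ℝ) 1 := by
    intro i
    simp only [ψ]
    split_ifs
    · exact hφ _
    · exact ⟨le_rfl, zero_le_one⟩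
  have h1 := heap_estimate n φ' hφ' ψ (hψ' 1) (by
    intro i hi hi2
    simp only [ψ, φ']
    have h3 : i / 2 < 2 ^ (n + 1) := lt_of_le_of_lt (Nat.div_le_self _ _) hi2
    rw [dif_pos hi2, dif_pos h3]
    congr 1
    have h4 := hγ ⟨i, hi2⟩ hi
    exact Prod.ext h4.1 (Fin.ext h4.2))
  have e1 : ∑ i : M n, nu n i * φ (γ (true, i))
      = (∑ i ∈ Finset.range (2 ^ (n + 1)), Lam i * ψ i) / (n + 1) := by
    rw [← Fin.sum_univ_eq_sum_range (fun i => Lam i * ψ i), Finset.sum_div]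
    refine Finset.sum_congr rfl fun i _ => ?_
    simp only [ψ, nu]
    rw [dif_pos i.2]
    ring
  have e2 : ∀ s, ∑ i : M n, nu n i * φ (s, i)
      = (∑ i ∈ Finset.range (2 ^ (n + 1)), Lam i * φ' s i) / (n + 1) := by
    intro s
    rw [← Fin.sum_univ_eq_sum_range (fun i => Lam i * φ' s i), Finset.sum_div]
    refine Finset.sum_congr rfl fun i _ => ?_
    simp only [φ', nu]
    rw [dif_pos i.2]
    ring
  rw [e1, e2, e2]
  have e3 : ∑ i ∈ Finset.range (2 ^ (n + 1)), Lam i * (φ' true i + φ' false i)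
      = ∑ i ∈ Finset.range (2 ^ (n + 1)), Lam i * φ' true i
        + ∑ i ∈ Finset.range (2 ^ (n + 1)), Lam i * φ' false i := by
    rw [← Finset.sum_add_distrib]
    refine Finset.sum_congr rfl fun i _ => ?_
    ring
  rw [e3] at h1
  have hn : (0:ℝ) < n + 1 := by positivity
  have e4 : (∑ i ∈ Finset.range (2 ^ (n + 1)), Lam i * ψ i) / ((n:ℝ) + 1)
      - 1 / 2 * ((∑ i ∈ Finset.range (2 ^ (n + 1)), Lam i * φ' true i) / ((n:ℝ) + 1)
        + (∑ i ∈ Finset.range (2 ^ (n + 1)), Lam i * φ' false i) / ((n:ℝ) + 1))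
      = (∑ i ∈ Finset.range (2 ^ (n + 1)), Lam i * ψ i
        - 1 / 2 * (∑ i ∈ Finset.range (2 ^ (n + 1)), Lam i * φ' true i
        + ∑ i ∈ Finset.range (2 ^ (n + 1)), Lam i * φ' false i)) / ((n:ℝ) + 1) := by
    field_simp
  rw [e4, abs_div, abs_of_pos hn]
  exact div_le_div_of_nonneg_right h1 hn.le

end Pool.Agent.H130R3.Am
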