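import Pool.Agent.H130R3.Am1

set_option autoImplicit false

open Filter Topology

namespace Pool.Agent.H130R3.Am

/-- the product space -/
abbrev Om := (i : ℕ) → M i

def base : Om := fun _ => ⟨0, by positivity⟩

/-- averaging the `n`-th coordinate -/
noncomputable def Av (n : ℕ) (f : Om → ℝ) : Om → ℝ :=
  fun ω => ∑ w : M n, nu n w * f (Function.update ω n w)

theorem Av_idem (n : ℕ) (f : Om → ℝ) : Av n (Av n f) = Av n f := by
  funext ω
  unfold Av
  simp only [Function.update_idem]
  rw [← Finset.sum_mul, nu_total, one_mul]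

theorem Av_comm (n m : ℕ) (h : n ≠ m) (f : Om → ℝ) : Av n (Av m f) = Av m (Av n f) := by
  funext ω
  unfold Av
  simp only [Finset.mul_sum]
  rw [Finset.sum_comm]
  refine Finset.sum_congr rfl fun w _ => Finset.sum_congr rfl fun w' _ => ?_
  rw [Function.update_comm h]
  ring

theorem Av_add (n : ℕ) (f g : Om → ℝ) : Av n (fun ω => f ω + g ω) = fun ω => Av n f ω + Av n g ω := by
  funext ω
  unfold Av
  rw [← Finset.sum_add_distrib]
  refine Finset.sum_congr rfl fun w _ => ?_
  ring

theorem Av_smul (n : ℕ) (c : ℝ) (f : Om → ℝ) : Av n (fun ω => c * f ω) = fun ω => c * Av n f ω := by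
  funext ω
  unfold Av
  rw [Finset.mul_sum]
  refine Finset.sum_congr rfl fun w _ => ?_
  ring

theorem Av_mono (n : ℕ) (f g : Om → ℝ) (h : ∀ ω, f ω ≤ g ω) (ω : Om) : Av n f ω ≤ Av n g ω :=
  Finset.sum_le_sum fun w _ => mul_le_mul_of_nonneg_left (h _) (nu_nonneg n w)

theorem Av_const (n : ℕ) (c : ℝ) : Av n (fun _ => c) = fun _ => c := by
  funext ω
  unfold Av
  rw [← Finset.sum_mul, nu_total, one_mul]

theorem Av_dep (n : ℕ) (f : Om → ℝ) (h : ∀ ω w, f (Function.update ω n w) = f ω) : Av n f = f := by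
  funext ω
  unfold Av
  simp only [h]
  rw [← Finset.sum_mul, nu_total, one_mul]

/-- expectation of the first `N` coordinates, the others being at the base point -/
noncomputable def EN : ℕ → (Om → ℝ) → ℝ
  | 0, f => f base
  | (N + 1), f => EN N (Av N f)

theorem EN_add (N : ℕ) : ∀ f g : Om → ℝ, EN N (fun ω => f ω + g ω) = EN N f + EN N g := by
  induction N with
  | zero => intro f g; rfl
  | succ N ih =>
    intro f g
    show EN N (Av N (fun ω => f ω + g ω)) = EN N (Av N f) + EN N (Av N g)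
    rw [Av_add, ih]

theorem EN_smul (N : ℕ) (c : ℝ) : ∀ f : Om → ℝ, EN N (fun ω => c * f ω) = c * EN N f := by
  induction N with
  | zero => intro f; rfl
  | succ N ih =>
    intro f
    show EN N (Av N (fun ω => c * f ω)) = c * EN N (Av N f)
    rw [Av_smul, ih]

theorem EN_mono (N : ℕ) : ∀ f g : Om → ℝ, (∀ ω, f ω ≤ g ω) → EN N f ≤ EN N g := by
  induction N with
  | zero => intro f g h; exact h _
  | succ N ih =>
    intro f g h
    exact ih _ _ (Av_mono N f g h)

theorem EN_const (N : ℕ) (c : ℝ) : EN N (fun _ => c) = c := by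
  induction N with
  | zero => rfl
  | succ N ih =>
    show EN N (Av N (fun _ => c)) = c
    rw [Av_const, ih]

theorem EN_Av (N n : ℕ) (h : n < N) : ∀ f : Om → ℝ, EN N (Av n f) = EN N f := by
  induction N with
  | zero => omega
  | succ N ih =>
    intro f
    show EN N (Av N (Av n f)) = EN N (Av N f)
    by_cases hn : n = N
    · subst hn
      rw [Av_idem]
    · rw [Av_comm N n (Ne.symm hn), ih (by omega)]

theorem EN_dep (N : ℕ) (f : Om → ℝ) (h : ∀ n, N ≤ n → ∀ ω w, f (Function.update ω n w) = f ω)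
    (K : ℕ) (hK : N ≤ K) : EN K f = EN N f := by
  induction K, hK using Nat.le_induction with
  | base => rfl
  | succ K hK ih =>
    show EN K (Av K f) = EN N f
    rw [Av_dep K f (h K hK), ih]

theorem EN_abs_le (N : ℕ) (f : Om → ℝ) (c : ℝ) (h : ∀ ω, |f ω| ≤ c) : |EN N f| ≤ c := by
  rw [abs_le]
  constructor
  · rw [← EN_const N (-c)]
    exact EN_mono N _ _ fun ω => (abs_le.1 (h ω)).1
  · calc EN N f ≤ EN N (fun _ => c) := EN_mono N _ _ fun ω => (abs_le.1 (h ω)).2
      _ = c := EN_const N c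

/-- agreement on the first coordinates -/
def agree (N : ℕ) (p q : Bool × Om) : Prop := p.1 = q.1 ∧ ∀ i < N, p.2 i = q.2 i

/-- the finite groups of permutations that act on the first `N` coordinates -/
def GN (N : ℕ) : Subgroup (Equiv.Perm (Bool × Om)) where
  carrier := {σ | (∀ p, ∀ i, N ≤ i → (σ p).2 i = p.2 i) ∧ ∀ p q, agree N p q → agree N (σ p) (σ q)}
  mul_mem' := by
    rintro σ τ ⟨h1, h2⟩ ⟨h3, h4⟩
    refine ⟨fun p i hi => ?_, fun p q h => ?_⟩
    · rw [Equiv.Perm.mul_apply, h1 _ i hi, h3 p i hi]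
    · rw [Equiv.Perm.mul_apply, Equiv.Perm.mul_apply]
      exact h2 _ _ (h4 _ _ h)
  one_mem' := ⟨fun p i _ => rfl, fun p q h => h⟩
  inv_mem' := by
    rintro σ ⟨h1, h2⟩
    have h5 : ∀ p i, N ≤ i → ((σ⁻¹) p).2 i = p.2 i := by
      intro p i hi
      have := h1 (σ⁻¹ p) i hi
      rw [show σ (σ⁻¹ p) = p from σ.apply_symm_apply p] at this
      exact this.symm
    refine ⟨h5, fun p q h => ?_⟩
    set p' := σ⁻¹ p with hp'
    set q' := σ⁻¹ q with hq'
    have hp : σ p' = p := σ.apply_symm_apply p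
    have hq : σ q' = q := σ.apply_symm_apply q
    let q'' : Bool × Om := (p'.1, fun i => if i < N then p'.2 i else q.2 i)
    have ha : agree N p' q'' := ⟨rfl, fun i hi => by simp [q'', hi]⟩
    have hb := h2 _ _ ha
    rw [hp] at hb
    have hc : σ q'' = q := by
      apply Prod.ext
      · rw [← hb.1, h.1]
      · funext i
        by_cases hi : i < N
        · rw [← hb.2 i hi, h.2 i hi]
        · rw [h1 q'' i (not_lt.1 hi)]
          simp [q'', hi]
    have hd : q'' = q' := by
      apply σ.injective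
      rw [hc, hq]
    rw [← hd]
    exact ha

theorem mem_GN (N : ℕ) (σ : Equiv.Perm (Bool × Om)) : σ ∈ GN N ↔
    (∀ p, ∀ i, N ≤ i → (σ p).2 i = p.2 i) ∧ ∀ p q, agree N p q → agree N (σ p) (σ q) := Iff.rfl

theorem GN_mono_succ (N : ℕ) : GN N ≤ GN (N + 1) := by
  rintro σ ⟨h1, h2⟩
  refine ⟨fun p i hi => h1 p i (by omega), fun p q h => ?_⟩
  have h3 := h2 p q ⟨h.1, fun i hi => h.2 i (by omega)⟩
  refine ⟨h3.1, fun i hi => ?_⟩
  by_cases hi' : i < N
  · exact h3.2 i hi'
  · have : i = N := by omega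
    subst this
    rw [h1 p i le_rfl, h1 q i le_rfl, h.2 i (by omega)]

theorem GN_mono : Monotone GN := monotone_nat_of_le_succ GN_mono_succ

instance GN_finite (N : ℕ) : Finite (GN N) := by
  classical
  let A := Bool × ((i : Fin N) → M i)
  let ext : A → Bool × Om := fun a => (a.1, fun i => if h : i < N then a.2 ⟨i, h⟩ else base i)
  let res : Bool × Om → A := fun p => (p.1, fun i => p.2 i)
  let Φ : GN N → (A → A) := fun σ a => res (σ.1 (ext a))
  apply Finite.of_injective Φ
  intro σ τ h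
  apply Subtype.ext
  apply Equiv.ext
  intro p
  have h1 := congrFun h (res p)
  have hag : agree N p (ext (res p)) := ⟨rfl, fun i hi => by simp [ext, res, hi]⟩
  have h2 := σ.2.2 _ _ hag
  have h3 := τ.2.2 _ _ hag
  have h4 : res (σ.1 (ext (res p))) = res (τ.1 (ext (res p))) := h1
  have h5 : (σ.1 (ext (res p))).1 = (τ.1 (ext (res p))).1 := by
    have h7 := congrArg Prod.fst h4
    exact h7
  have h6 : ∀ i : Fin N, (σ.1 (ext (res p))).2 i = (τ.1 (ext (res p))).2 i := by
    intro i
    have h7 := congrArg Prod.snd h4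
    exact congrFun h7 i
  apply Prod.ext
  · rw [h2.1, h3.1]
    exact h5
  · funext i
    by_cases hi : i < N
    · rw [h2.2 i hi, h3.2 i hi]
      exact h6 ⟨i, hi⟩
    · rw [σ.2.1 p i (not_lt.1 hi), τ.2.1 p i (not_lt.1 hi)]

theorem GN_set_finite (N : ℕ) : (GN N : Set (Equiv.Perm (Bool × Om))).Finite :=
  Set.finite_coe_iff.1 (GN_finite N)

/-- the group -/
def GS : Subgroup (Equiv.Perm (Bool × Om)) where
  carrier := {σ | ∃ N, σ ∈ GN N}
  mul_mem' := by
    rintro σ τ ⟨N, h1⟩ ⟨K, h2⟩
    exact ⟨max N K, (GN (max N K)).mul_mem (GN_mono (le_max_left _ _) h1)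
      (GN_mono (le_max_right _ _) h2)⟩
  one_mem' := ⟨0, (GN 0).one_mem⟩
  inv_mem' := by
    rintro σ ⟨N, h1⟩
    exact ⟨N, (GN N).inv_mem h1⟩

def GG : Type := ↥GS

instance : Group GG := inferInstanceAs (Group ↥GS)

instance : Countable GG := by
  have h1 : (GS : Set (Equiv.Perm (Bool × Om))) = ⋃ N, (GN N : Set (Equiv.Perm (Bool × Om))) := by
    ext σ
    simp only [Set.mem_iUnion, SetLike.mem_coe]
    exact Iff.rfl
  have h2 : (GS : Set (Equiv.Perm (Bool × Om))).Countable := by
    rw [h1]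
    exact Set.countable_iUnion fun N => (GN_set_finite N).countable
  exact h2.to_subtype

/-- the underlying permutation -/
def perm (g : GG) : Equiv.Perm (Bool × Om) := (show ↥GS from g).1

theorem perm_mul (g h : GG) : perm (g * h) = perm g * perm h := rfl
theorem perm_one : perm 1 = 1 := rfl
theorem perm_inv (g : GG) : perm g⁻¹ = (perm g)⁻¹ := rfl
theorem perm_injective : Function.Injective perm := fun _ _ h => Subtype.ext h

theorem exists_level (g : GG) : ∃ N, perm g ∈ GN N := (show ↥GS from g).2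

theorem folner (F : Finset GG) (ε : ℝ) (hε : 0 < ε) : ∃ A : Set GG, A.Finite ∧ A.Nonempty ∧
    ∀ g ∈ F, ((symmDiff ((fun x => g * x) '' A) A).ncard : ℝ) < ε * (A.ncard : ℝ) := by
  classical
  choose lev hlev using exists_level
  set N := F.sup lev with hN
  set A : Set GG := {g | perm g ∈ GN N} with hA
  have hfin : A.Finite := by
    have h1 : (perm '' A).Finite := by
      have h2 : perm '' A ⊆ (GN N : Set (Equiv.Perm (Bool × Om))) := by
        rintro _ ⟨g, hg, rfl⟩; exact hg
      exact (GN_set_finite N).subset h2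
    exact Set.Finite.of_finite_image h1 perm_injective.injOn
  have hne : A.Nonempty := ⟨1, by rw [hA]; exact (GN N).one_mem⟩
  refine ⟨A, hfin, hne, fun g hg => ?_⟩
  have hgN : perm g ∈ GN N := GN_mono (Finset.le_sup hg) (hlev g)
  have h1 : (fun x => g * x) '' A = A := by
    ext x
    constructor
    · rintro ⟨y, hy, rfl⟩
      exact (GN N).mul_mem hgN hy
    · intro hx
      exact ⟨g⁻¹ * x, (GN N).mul_mem ((GN N).inv_mem hgN) hx, by simp⟩
  rw [h1, symmDiff_self]
  simp only [Set.bot_eq_empty, Set.ncard_empty, Nat.cast_zero]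
  have h2 : 0 < A.ncard := (Set.ncard_pos hfin).2 hne
  positivity

end Pool.Agent.H130R3.Am
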