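import Pool.Agent.H130R3.Am2

set_option autoImplicit false

open Filter Topology

namespace Pool.Agent.H130R3.Am

/-- indicator of the event that the first coordinate is `true` -/
noncomputable def ind (p : Bool × Om) : ℝ := if p.1 = true then 1 else 0

theorem ind_mem (p : Bool × Om) : ind p ∈ Set.Icc (0:ℝ) 1 := by
  unfold ind
  split_ifs
  · exact ⟨zero_le_one, le_rfl⟩
  · exact ⟨le_rfl, zero_le_one⟩

theorem dep_of_GN (N : ℕ) (σ : Equiv.Perm (Bool × Om)) (h : σ ∈ GN N) (s : Bool) (n : ℕ)
    (hn : N ≤ n) (ω : Om) (w : M n) :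
    ind (σ (s, Function.update ω n w)) = ind (σ (s, ω)) := by
  have h1 : agree N (s, Function.update ω n w) (s, ω) := by
    refine ⟨rfl, fun i hi => ?_⟩
    show Function.update ω n w i = ω i
    rw [Function.update_of_ne (by omega)]
  have h2 := (h.2 _ _ h1).1
  unfold ind
  rw [h2]

/-- the function on the group -/
noncomputable def FF (k : GG) : ℝ :=
  EN (Classical.choose (exists_level k)) (fun ω => ind (perm k (true, ω)))

theorem FF_eq (k : GG) (N : ℕ) (h : perm k ∈ GN N) :
    FF k = EN N (fun ω => ind (perm k (true, ω))) := by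
  unfold FF
  set a := Classical.choose (exists_level k) with ha
  have h1 : perm k ∈ GN a := Classical.choose_spec (exists_level k)
  have h2 := EN_dep a (fun ω => ind (perm k (true, ω)))
    (fun n hn ω w => dep_of_GN a _ h1 true n hn ω w) (max a N) (le_max_left _ _)
  have h3 := EN_dep N (fun ω => ind (perm k (true, ω)))
    (fun n hn ω w => dep_of_GN N _ h true n hn ω w) (max a N) (le_max_right _ _)
  rw [← h2, h3]

theorem FF_mem (k : GG) : |FF k| ≤ 1 := by
  unfold FF
  apply EN_abs_le
  intro ω
  rw [abs_of_nonneg (ind_mem _).1]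
  exact (ind_mem _).2

/-- the swap of the first coordinate -/
def hperm : Equiv.Perm (Bool × Om) := Equiv.prodCongr Equiv.boolNot (Equiv.refl Om)

theorem hperm_mem : hperm ∈ GN 0 := by
  refine ⟨fun p i _ => rfl, fun p q h => ⟨?_, fun i hi => absurd hi (Nat.not_lt_zero i)⟩⟩
  show (!p.1) = (!q.1)
  rw [h.1]

def hG : GG := (⟨hperm, 0, hperm_mem⟩ : ↥GS)

theorem perm_hG (ω : Om) (s : Bool) : perm hG (s, ω) = (!s, ω) := rfl

/-- the permutation acting on the first coordinate and on the `n`-th letter -/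
def gperm (n : ℕ) (γ : Equiv.Perm (Bool × M n)) : Equiv.Perm (Bool × Om) where
  toFun p := ((γ (p.1, p.2 n)).1, Function.update p.2 n (γ (p.1, p.2 n)).2)
  invFun p := ((γ.symm (p.1, p.2 n)).1, Function.update p.2 n (γ.symm (p.1, p.2 n)).2)
  left_inv p := by
    simp
  right_inv p := by
    simp

theorem gperm_mem (n : ℕ) (γ : Equiv.Perm (Bool × M n)) : gperm n γ ∈ GN (n + 1) := by
  refine ⟨fun p i hi => ?_, fun p q h => ?_⟩
  · show Function.update p.2 n (γ (p.1, p.2 n)).2 i = p.2 i
    rw [Function.update_of_ne (by omega)]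
  · have h1 : p.2 n = q.2 n := h.2 n (Nat.lt_succ_self n)
    refine ⟨?_, fun i hi => ?_⟩
    · show (γ (p.1, p.2 n)).1 = (γ (q.1, q.2 n)).1
      rw [h.1, h1]
    · show Function.update p.2 n (γ (p.1, p.2 n)).2 i = Function.update q.2 n (γ (q.1, q.2 n)).2 i
      by_cases hin : i = n
      · subst hin
        rw [Function.update_self, Function.update_self, h.1, h1]
      · rw [Function.update_of_ne hin, Function.update_of_ne hin, h.2 i hi]

noncomputable def gam (n : ℕ) : Equiv.Perm (Bool × M n) := Classical.choose (exists_gamma n)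

noncomputable def gG (n : ℕ) : GG := (⟨gperm n (gam n), n + 1, gperm_mem n _⟩ : ↥GS)

theorem perm_gG (n : ℕ) : perm (gG n) = gperm n (gam n) := rfl

theorem estimate (k : GG) (n : ℕ) :
    |FF (k * gG n) - 1 / 2 * (FF k + FF (k * hG))| ≤ 1 / (n + 1) := by
  obtain ⟨N0, hN0⟩ := exists_level k
  set N := max N0 (n + 1) with hN
  have hk : perm k ∈ GN N := GN_mono (le_max_left _ _) hN0
  have hg : perm (gG n) ∈ GN N := GN_mono (le_max_right _ _) (gperm_mem n _)
  have hh : perm hG ∈ GN N := GN_mono (Nat.zero_le _) hperm_mem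
  have hnN : n < N := lt_of_lt_of_le (Nat.lt_succ_self n) (le_max_right _ _)
  rw [FF_eq (k * gG n) N (by rw [perm_mul]; exact (GN N).mul_mem hk hg),
    FF_eq k N hk, FF_eq (k * hG) N (by rw [perm_mul]; exact (GN N).mul_mem hk hh)]
  rw [← EN_Av N n hnN (fun ω => ind (perm (k * gG n) (true, ω))),
    ← EN_Av N n hnN (fun ω => ind (perm k (true, ω))),
    ← EN_Av N n hnN (fun ω => ind (perm (k * hG) (true, ω)))]
  set f1 := Av n (fun ω => ind (perm (k * gG n) (true, ω))) with hf1
  set f2 := Av n (fun ω => ind (perm k (true, ω))) with hf2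
  set f3 := Av n (fun ω => ind (perm (k * hG) (true, ω))) with hf3
  have h1 : EN N f1 - 1 / 2 * (EN N f2 + EN N f3)
      = EN N (fun ω => f1 ω + (-(1/2 : ℝ)) * (f2 ω + f3 ω)) := by
    rw [EN_add, EN_smul, EN_add]
    ring
  rw [h1]
  apply EN_abs_le
  intro ω
  have h2 := nu_estimate n (gam n) (Classical.choose_spec (exists_gamma n))
    (fun p => ind (perm k (p.1, Function.update ω n p.2))) (fun p => ind_mem _)
  have e1 : f1 ω = ∑ i : M n, nu n i *
      ind (perm k (((gam n) (true, i)).1, Function.update ω n ((gam n) (true, i)).2)) := by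
    simp only [hf1, Av]
    refine Finset.sum_congr rfl fun w _ => ?_
    congr 1
    rw [perm_mul, Equiv.Perm.mul_apply]
    congr 2
    show (((gam n) (true, Function.update ω n w n)).1,
      Function.update (Function.update ω n w) n ((gam n) (true, Function.update ω n w n)).2) = _
    rw [Function.update_self, Function.update_idem]
  have e2 : f2 ω = ∑ i : M n, nu n i * ind (perm k (true, Function.update ω n i)) := rfl
  have e3 : f3 ω = ∑ i : M n, nu n i * ind (perm k (false, Function.update ω n i)) := rfl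
  have e4 : f1 ω + (-(1/2 : ℝ)) * (f2 ω + f3 ω) = f1 ω - 1 / 2 * (f2 ω + f3 ω) := by ring
  rw [e4, e1, e2, e3]
  exact h2

theorem FF_one : FF 1 = 1 := by
  rw [FF_eq 1 0 (by rw [perm_one]; exact (GN 0).one_mem)]
  show ind (true, base) = 1
  simp [ind]

theorem FF_h : FF hG = 0 := by
  rw [FF_eq hG 0 hperm_mem]
  show ind (false, base) = 0
  simp [ind]

end Pool.Agent.H130R3.Am
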