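import Pool.Agent.H130R3.Am3

set_option autoImplicit false

open Filter Topology

namespace Pool.Agent.H130R3.Am

instance : TopologicalSpace GG := ⊥
instance : DiscreteTopology GG := ⟨rfl⟩

/-- ambient space -/
abbrev E0 := BoundedContinuousFunction GG ℝ

/-- right translation -/
noncomputable def rt (g : GG) : E0 →ₗ[ℝ] E0 :=
  ⟨⟨fun φ => φ.compContinuous ⟨fun k => k * g, continuous_of_discreteTopology⟩, fun _ _ => rfl⟩,
    fun _ _ => rfl⟩

theorem rt_apply (g : GG) (φ : E0) (k : GG) : rt g φ k = φ (k * g) := rfl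

theorem rt_mul (g h : GG) (φ : E0) : rt (g * h) φ = rt g (rt h φ) := by
  ext k
  rw [rt_apply, rt_apply, rt_apply, mul_assoc]

theorem rt_one (φ : E0) : rt 1 φ = φ := by
  ext k
  rw [rt_apply, mul_one]

theorem rt_norm_le (g : GG) (φ : E0) : ‖rt g φ‖ ≤ ‖φ‖ :=
  (BoundedContinuousFunction.norm_le (norm_nonneg _)).2 fun k => φ.norm_coe_le_norm _

theorem rt_norm (g : GG) (φ : E0) : ‖rt g φ‖ = ‖φ‖ := by
  apply le_antisymm (rt_norm_le g φ)
  have h1 := rt_norm_le g⁻¹ (rt g φ)
  rwa [← rt_mul, inv_mul_cancel, rt_one] at h1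

noncomputable def F0 : E0 :=
  BoundedContinuousFunction.ofNormedAddCommGroup FF continuous_of_discreteTopology 1
    (fun k => by rw [Real.norm_eq_abs]; exact FF_mem k)

theorem F0_apply (k : GG) : F0 k = FF k := rfl

noncomputable def S0 : Submodule ℝ E0 := Submodule.span ℝ (Set.range fun g => rt g F0)

noncomputable def XS : Submodule ℝ E0 := S0.topologicalClosure

theorem rt_mem (g : GG) (φ : E0) (h : φ ∈ XS) : rt g φ ∈ XS := by
  have hc : Continuous (rt g) := by
    have h1 : Continuous (LinearMap.mkContinuous (rt g) 1 (fun φ => by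
      rw [one_mul]; exact rt_norm_le g φ)) := ContinuousLinearMap.continuous _
    exact h1
  have h1 : XS ≤ XS.comap (rt g) := by
    apply Submodule.topologicalClosure_minimal
    · unfold S0
      rw [Submodule.span_le]
      rintro _ ⟨k, rfl⟩
      show rt g (rt k F0) ∈ XS
      rw [← rt_mul]
      exact Submodule.le_topologicalClosure _ (Submodule.subset_span ⟨g * k, rfl⟩)
    · exact (Submodule.isClosed_topologicalClosure S0).preimage hc
  exact h1 h

def X : Type := ↥XS

noncomputable instance : NormedAddCommGroup X := inferInstanceAs (NormedAddCommGroup ↥XS)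
noncomputable instance : NormedSpace ℝ X := inferInstanceAs (NormedSpace ℝ ↥XS)

instance : CompleteSpace X := inferInstanceAs (CompleteSpace S0.topologicalClosure)

instance : TopologicalSpace.SeparableSpace X := by
  have h1 : TopologicalSpace.IsSeparable (XS : Set E0) := by
    have h2 : (XS : Set E0) = closure (S0 : Set E0) := Submodule.topologicalClosure_coe _
    rw [h2]
    apply TopologicalSpace.IsSeparable.closure
    apply TopologicalSpace.IsSeparable.span
    exact (Set.countable_range _).isSeparable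
  exact h1.separableSpace

noncomputable def incl : X →ₗᵢ[ℝ] E0 := XS.subtypeₗᵢ

/-- right translation on `X` -/
noncomputable def rX (g : GG) : X →ₗ[ℝ] X :=
  (rt g).restrict (p := XS) (q := XS) (fun φ h => rt_mem g φ h)

theorem incl_rX (g : GG) (x : X) : incl (rX g x) = rt g (incl x) := rfl

theorem rX_mul (g h : GG) (x : X) : rX (g * h) x = rX g (rX h x) := by
  apply incl.injective
  rw [incl_rX, incl_rX, incl_rX, rt_mul]

theorem rX_one (x : X) : rX 1 x = x := by
  apply incl.injective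
  rw [incl_rX, rt_one]

theorem rX_norm (g : GG) (x : X) : ‖rX g x‖ = ‖x‖ := by
  rw [← incl.norm_map, ← incl.norm_map x, incl_rX, rt_norm]

/-- the action -/
noncomputable def rho : GG →* (X ≃ₗᵢ[ℝ] X) where
  toFun g := ⟨LinearEquiv.ofLinear (rX g) (rX g⁻¹)
    (by ext1 x; show rX g (rX g⁻¹ x) = x; rw [← rX_mul, mul_inv_cancel, rX_one])
    (by ext1 x; show rX g⁻¹ (rX g x) = x; rw [← rX_mul, inv_mul_cancel, rX_one]),
    fun x => rX_norm g x⟩
  map_one' := by
    ext1 x
    exact rX_one x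
  map_mul' g h := by
    ext1 x
    exact rX_mul g h x

theorem rho_apply (g : GG) (x : X) : rho g x = rX g x := rfl

theorem F0_mem : F0 ∈ XS := by
  apply Submodule.le_topologicalClosure
  apply Submodule.subset_span
  exact ⟨1, rt_one F0⟩

noncomputable def x0 : X := (⟨F0, F0_mem⟩ : ↥XS)

theorem incl_x0 : incl x0 = F0 := rfl

theorem approx (n : ℕ) : ‖rX (gG n) x0 - (1/2 : ℝ) • (x0 + rX hG x0)‖ ≤ 1 / (n + 1) := by
  rw [← incl.norm_map, map_sub, map_smul, map_add, incl_rX, incl_rX, incl_x0]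
  refine (BoundedContinuousFunction.norm_le (by positivity)).2 fun k => ?_
  have h1 : (rt (gG n) F0 - (1/2 : ℝ) • (F0 + rt hG F0)) k
      = FF (k * gG n) - 1 / 2 * (FF k + FF (k * hG)) := rfl
  rw [h1]
  exact estimate k n

theorem x0_ne : x0 ≠ rX hG x0 := by
  intro h
  have h1 := congrArg (fun x => incl x 1) h
  simp only [incl_rX, incl_x0, rt_apply, F0_apply, one_mul] at h1
  rw [FF_one, FF_h] at h1
  norm_num at h1

theorem no_norm (N : X → ℝ) (h1 : ∀ x y : X, N (x + y) ≤ N x + N y)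
    (h2 : ∀ (c : ℝ) (x : X), N (c • x) = |c| * N x)
    (h3 : ∃ a b : ℝ, 0 < a ∧ 0 < b ∧ ∀ x : X, a * ‖x‖ ≤ N x ∧ N x ≤ b * ‖x‖)
    (h4 : ∀ (g : GG) (x : X), N (rho g x) = N x)
    (h5 : ∀ x y : X, N x = 1 → N y = 1 → x ≠ y → N ((1 / 2 : ℝ) • (x + y)) < 1) : False := by
  obtain ⟨a, b, ha, hb, hab⟩ := h3
  set y0 := rX hG x0 with hy0
  set m := (1/2 : ℝ) • (x0 + y0) with hm
  have hx0 : x0 ≠ 0 := by
    intro h
    apply x0_ne
    rw [h, map_zero]
  set r := N x0 with hr
  have hr0 : 0 < r := lt_of_lt_of_le (mul_pos ha (norm_pos_iff.2 hx0)) (hab x0).1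
  have hy : N y0 = r := h4 hG x0
  have hmle : N m ≤ r := by
    rw [hm, h2, abs_of_pos (by norm_num : (0:ℝ) < 1/2)]
    have := h1 x0 y0
    linarith
  have hmge : r ≤ N m := by
    have h6 : ∀ n : ℕ, r ≤ N m + b * (1 / ((n : ℝ) + 1)) := by
      intro n
      have h7 : rX (gG n) x0 = m + (rX (gG n) x0 - m) := by abel
      have h8 : N (rX (gG n) x0) = r := h4 (gG n) x0
      have h9 := h1 m (rX (gG n) x0 - m)
      rw [← h7, h8] at h9
      have h10 := (hab (rX (gG n) x0 - m)).2
      have h11 := approx n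
      have h12 : b * ‖rX (gG n) x0 - m‖ ≤ b * (1 / ((n:ℝ) + 1)) :=
        mul_le_mul_of_nonneg_left h11 hb.le
      linarith
    have h7 : Tendsto (fun n : ℕ => N m + b * (1 / ((n : ℝ) + 1))) atTop (𝓝 (N m + b * 0)) :=
      (tendsto_one_div_add_atTop_nhds_zero_nat.const_mul b).const_add _
    rw [mul_zero, add_zero] at h7
    exact ge_of_tendsto' h7 h6
  have hmr : N m = r := le_antisymm hmle hmge
  have hri : |r⁻¹| = r⁻¹ := abs_of_pos (inv_pos.2 hr0)
  have h6 := h5 (r⁻¹ • x0) (r⁻¹ • y0) (by rw [h2, hri, ← hr, inv_mul_cancel₀ hr0.ne'])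
    (by rw [h2, hri, hy, inv_mul_cancel₀ hr0.ne'])
    (by
      intro h
      exact x0_ne (smul_right_injective X (inv_ne_zero hr0.ne') h))
  have h7 : (1 / 2 : ℝ) • (r⁻¹ • x0 + r⁻¹ • y0) = r⁻¹ • m := by
    rw [hm, ← smul_add, smul_comm]
  rw [h7, h2, hri, hmr, inv_mul_cancel₀ hr0.ne'] at h6
  exact lt_irrefl _ h6

end Pool.Agent.H130R3.Am
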