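import Mathlib

set_option autoImplicit false

open Filter Topology

namespace Pool.Agent.H130R3.PNI

section defs
variable (k : ℕ) {Z : Type*} [NormedAddCommGroup Z] [NormedSpace ℂ Z]

/-- the set defining the norm of the polynomial of `A` -/
def nset (A : ContinuousMultilinearMap ℂ (fun _ : Fin k => Z) Z) : Set ℝ :=
  {s : ℝ | ∃ x : Z, ‖x‖ ≤ 1 ∧ s = ‖A (fun _ => x)‖}

/-- the set defining the numerical radius of the polynomial of `A` -/
def vset (A : ContinuousMultilinearMap ℂ (fun _ : Fin k => Z) Z) : Set ℝ :=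
  {s : ℝ | ∃ (x : Z) (φ : Z →L[ℂ] ℂ), ‖x‖ = 1 ∧ ‖φ‖ = 1 ∧ φ x = 1 ∧ s = ‖φ (A (fun _ => x))‖}

variable (Z) in
/-- the set of numerical radii -/
def iset : Set ℝ :=
  {r : ℝ | ∃ A : ContinuousMultilinearMap ℂ (fun _ : Fin k => Z) Z,
    sSup (nset k A) = 1 ∧ r = sSup (vset k A)}

end defs

section basic
variable {k : ℕ} {Z : Type*} [NormedAddCommGroup Z] [NormedSpace ℂ Z]

theorem pow_le (A : ContinuousMultilinearMap ℂ (fun _ : Fin k => Z) Z) (x : Z) (hx : ‖x‖ ≤ 1) :
    ‖A (fun _ => x)‖ ≤ ‖A‖ := by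
  refine (A.le_opNorm _).trans ?_
  have h1 : ∏ _i : Fin k, ‖x‖ ≤ 1 := Finset.prod_le_one (fun _ _ => norm_nonneg _) (fun _ _ => hx)
  nlinarith [norm_nonneg A]

theorem nset_bdd (A : ContinuousMultilinearMap ℂ (fun _ : Fin k => Z) Z) : BddAbove (nset k A) := by
  refine ⟨‖A‖, ?_⟩
  rintro _ ⟨x, hx, rfl⟩
  exact pow_le A x hx

theorem le_nset (A : ContinuousMultilinearMap ℂ (fun _ : Fin k => Z) Z) (x : Z) (hx : ‖x‖ ≤ 1) :
    ‖A (fun _ => x)‖ ≤ sSup (nset k A) := le_csSup (nset_bdd A) ⟨x, hx, rfl⟩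

theorem vset_bdd (A : ContinuousMultilinearMap ℂ (fun _ : Fin k => Z) Z) : BddAbove (vset k A) := by
  refine ⟨‖A‖, ?_⟩
  rintro _ ⟨x, φ, hx, hφ, -, rfl⟩
  refine (φ.le_opNorm _).trans ?_
  rw [hφ, one_mul]
  exact pow_le A x hx.le

theorem le_vset (A : ContinuousMultilinearMap ℂ (fun _ : Fin k => Z) Z) (x : Z) (φ : Z →L[ℂ] ℂ)
    (hx : ‖x‖ = 1) (hφ : ‖φ‖ = 1) (h : φ x = 1) :
    ‖φ (A (fun _ => x))‖ ≤ sSup (vset k A) := le_csSup (vset_bdd A) ⟨x, φ, hx, hφ, h, rfl⟩

theorem vset_nonneg (A : ContinuousMultilinearMap ℂ (fun _ : Fin k => Z) Z) :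
    0 ≤ sSup (vset k A) := by
  apply Real.sSup_nonneg
  rintro _ ⟨x, φ, -, -, -, rfl⟩
  exact norm_nonneg _

theorem iset_bdd : BddBelow (iset k Z) := by
  refine ⟨0, ?_⟩
  rintro _ ⟨A, -, rfl⟩
  exact vset_nonneg A

theorem iset_nonneg : 0 ≤ sInf (iset k Z) := by
  apply Real.sInf_nonneg
  rintro _ ⟨A, -, rfl⟩
  exact vset_nonneg A

theorem exists_unit (Z : Type*) [NormedAddCommGroup Z] [NormedSpace ℂ Z] [Nontrivial Z] :
    ∃ v : Z, ‖v‖ = 1 := by
  obtain ⟨z, hz⟩ := exists_ne (0 : Z)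
  have h1 : ‖z‖ ≠ 0 := norm_ne_zero_iff.2 hz
  refine ⟨((‖z‖ : ℂ)⁻¹) • z, ?_⟩
  rw [norm_smul, norm_inv, Complex.norm_real, norm_norm, inv_mul_cancel₀ h1]

theorem exists_dual_unit (v : Z) (hv : ‖v‖ = 1) : ∃ φ : Z →L[ℂ] ℂ, ‖φ‖ = 1 ∧ φ v = 1 := by
  obtain ⟨φ, h1, h2⟩ := exists_dual_vector ℂ v (by rw [hv]; exact one_ne_zero)
  refine ⟨φ, h1, ?_⟩
  rw [h2, hv]
  simp

theorem iset_nonempty [Nontrivial Z] : (iset k Z).Nonempty := by
  obtain ⟨v, hv⟩ := exists_unit Z
  obtain ⟨φ, hφ, hφv⟩ := exists_dual_unit v hv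
  set A : ContinuousMultilinearMap ℂ (fun _ : Fin k => Z) Z :=
    ((ContinuousMultilinearMap.mkPiAlgebra ℂ (Fin k) ℂ).compContinuousLinearMap
      (fun _ => φ)).smulRight v with hA
  have hAx : ∀ x : Z, A (fun _ => x) = (φ x) ^ k • v := by
    intro x
    simp [hA]
  refine ⟨_, A, ?_, rfl⟩
  apply le_antisymm
  · apply csSup_le
    · exact ⟨_, 0, by simp, rfl⟩
    · rintro _ ⟨x, hx, rfl⟩
      rw [hAx, norm_smul, hv, mul_one, norm_pow]
      apply pow_le_one₀ (norm_nonneg _)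
      refine (φ.le_opNorm x).trans ?_
      rw [hφ, one_mul]
      exact hx
  · have h1 := le_nset A v hv.le
    rw [hAx, hφv, one_pow, one_smul, hv] at h1
    exact h1

theorem smul_scaling (A : ContinuousMultilinearMap ℂ (fun _ : Fin k => Z) Z)
    (h : 0 < sSup (nset k A)) : sInf (iset k Z) * sSup (nset k A) ≤ sSup (vset k A) := by
  set β := sSup (nset k A) with hβ
  set B : ContinuousMultilinearMap ℂ (fun _ : Fin k => Z) Z := ((β : ℂ)⁻¹) • A with hB
  have hβn : ‖((β : ℂ)⁻¹)‖ = β⁻¹ := by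
    rw [norm_inv, Complex.norm_real, Real.norm_of_nonneg h.le]
  have hBx : ∀ x : Z, B (fun _ => x) = ((β : ℂ)⁻¹) • A (fun _ => x) := fun x => rfl
  have h1 : sSup (nset k B) = 1 := by
    apply le_antisymm
    · apply csSup_le
      · exact ⟨_, 0, by simp, rfl⟩
      · rintro _ ⟨x, hx, rfl⟩
        rw [hBx, norm_smul, hβn, inv_mul_le_iff₀ h, mul_one]
        exact le_nset A x hx
    · have h2 : sSup (nset k A) ≤ β * sSup (nset k B) := by
        apply csSup_le
        · exact ⟨_, 0, by simp, rfl⟩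
        · rintro _ ⟨x, hx, rfl⟩
          have h3 := le_nset B x hx
          rw [hBx, norm_smul, hβn, inv_mul_le_iff₀ h] at h3
          exact h3
      rw [← hβ] at h2
      by_contra hcon
      push Not at hcon
      nlinarith
  have h2 : sInf (iset k Z) ≤ sSup (vset k B) := csInf_le iset_bdd ⟨B, h1, rfl⟩
  have h3 : sSup (vset k B) ≤ β⁻¹ * sSup (vset k A) := by
    apply Real.sSup_le
    · rintro _ ⟨x, φ, hx, hφ, hφx, rfl⟩
      rw [hBx, map_smul, smul_eq_mul, norm_mul, hβn]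
      exact mul_le_mul_of_nonneg_left (le_vset A x φ hx hφ hφx) (by positivity)
    · exact mul_nonneg (by positivity) (vset_nonneg A)
  have h4 := h2.trans h3
  rw [inv_mul_eq_div, le_div_iff₀ h] at h4
  exact h4

theorem iset_le_one [Nontrivial Z] : sInf (iset k Z) ≤ 1 := by
  obtain ⟨r, A, hA, rfl⟩ := iset_nonempty (k := k) (Z := Z)
  refine (csInf_le iset_bdd ⟨A, hA, rfl⟩).trans ?_
  apply Real.sSup_le _ zero_le_one
  rintro _ ⟨x, φ, hx, hφ, -, rfl⟩
  refine (φ.le_opNorm _).trans ?_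
  rw [hφ, one_mul, ← hA]
  exact le_nset A x hx.le

end basic

section main

variable {Λ : Type*} {X : Λ → Type*} [∀ i, NormedAddCommGroup (X i)]
  [∀ i, NormedSpace ℂ (X i)] {Z : Type*} [NormedAddCommGroup Z] [NormedSpace ℂ Z]

/-- abstract sup-sum structure -/
structure SupSum (J : ∀ i, X i →L[ℂ] Z) (π : ∀ i, Z →L[ℂ] X i) : Prop where
  pi_J : ∀ i w, π i (J i w) = w
  pi_J_ne : ∀ i j, j ≠ i → ∀ w, π j (J i w) = 0
  norm_le : ∀ (z : Z) (r : ℝ), 0 ≤ r → (∀ i, ‖π i z‖ ≤ r) → ‖z‖ ≤ r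
  norm_pi : ∀ i z, ‖π i z‖ ≤ ‖z‖

variable {J : ∀ i, X i →L[ℂ] Z} {π : ∀ i, Z →L[ℂ] X i}

/-- replace the `i`-th coordinate -/
noncomputable def repl (J : ∀ i, X i →L[ℂ] Z) (π : ∀ i, Z →L[ℂ] X i) (i : Λ) (x : Z) (w : X i) : Z :=
  x - J i (π i x) + J i w

theorem pi_repl (h : SupSum J π) (i : Λ) (x : Z) (w : X i) : π i (repl J π i x w) = w := by
  unfold repl
  rw [map_add, map_sub, h.pi_J, h.pi_J, sub_self, zero_add]

theorem pi_repl_ne (h : SupSum J π) (i j : Λ) (hj : j ≠ i) (x : Z) (w : X i) :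
    π j (repl J π i x w) = π j x := by
  unfold repl
  rw [map_add, map_sub, h.pi_J_ne i j hj, h.pi_J_ne i j hj, sub_zero, add_zero]

theorem norm_repl (h : SupSum J π) (i : Λ) (x : Z) (w : X i) (hx : ‖x‖ ≤ 1) (hw : ‖w‖ ≤ 1) :
    ‖repl J π i x w‖ ≤ 1 := by
  apply h.norm_le _ _ zero_le_one
  intro j
  by_cases hj : j = i
  · subst hj
    rw [pi_repl h]; exact hw
  · rw [pi_repl_ne h i j hj]
    exact (h.norm_pi j x).trans hx

theorem norm_J (h : SupSum J π) (i : Λ) (w : X i) : ‖J i w‖ = ‖w‖ := by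
  apply le_antisymm
  · apply h.norm_le _ _ (norm_nonneg _)
    intro j
    by_cases hj : j = i
    · subst hj
      rw [h.pi_J]
    · rw [h.pi_J_ne i j hj, norm_zero]; exact norm_nonneg _
  · have := h.norm_pi i (J i w)
    rwa [h.pi_J] at this

theorem max_modulus (h : SupSum J π) (i : Λ) [Nontrivial (X i)] {k : ℕ}
    (A : ContinuousMultilinearMap ℂ (fun _ : Fin k => Z) Z) (x : Z) (hx : ‖x‖ ≤ 1) :
    ∃ x' : Z, ‖x'‖ ≤ 1 ∧ ‖π i x'‖ = 1 ∧ ‖π i (A (fun _ => x))‖ ≤ ‖π i (A (fun _ => x'))‖ := by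
  obtain ⟨u, ζ0, hu, hζ0, hζu⟩ : ∃ (u : X i) (ζ0 : ℂ), ‖u‖ = 1 ∧ ‖ζ0‖ ≤ 1 ∧ ζ0 • u = π i x := by
    by_cases ha : π i x = 0
    · obtain ⟨u, hu⟩ := exists_unit (X i)
      exact ⟨u, 0, hu, by simp, by simp [ha]⟩
    · have h1 : ‖π i x‖ ≠ 0 := norm_ne_zero_iff.2 ha
      refine ⟨((‖π i x‖ : ℂ)⁻¹) • π i x, (‖π i x‖ : ℂ), ?_, ?_, ?_⟩
      · rw [norm_smul, norm_inv, Complex.norm_real, norm_norm, inv_mul_cancel₀ h1]
      · rw [Complex.norm_real, norm_norm]
        exact (h.norm_pi i x).trans hx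
      · rw [smul_smul, mul_inv_cancel₀ (by exact_mod_cast h1), one_smul]
  set g : ℂ → X i := fun ζ => π i (A (fun _ => repl J π i x (ζ • u))) with hg
  have hgd : Differentiable ℂ g := by
    have h1 : Differentiable ℂ (fun ζ : ℂ => repl J π i x (ζ • u)) := by
      unfold repl
      exact (differentiable_const _).add ((J i).differentiable.comp
        (differentiable_id.smul_const u))
    have h2 : Differentiable ℂ (fun z : Fin k → Z => A z) := by
      intro z
      exact (A.hasStrictFDerivAt z).hasFDerivAt.differentiableAt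
    have h3 : Differentiable ℂ (fun ζ : ℂ => (fun _ : Fin k => repl J π i x (ζ • u))) :=
      differentiable_pi.2 fun _ => h1
    exact (π i).differentiable.comp (h2.comp h3)
  obtain ⟨ζ1, hζ1, hmax⟩ := Complex.exists_mem_frontier_isMaxOn_norm (f := g)
    (U := Metric.ball (0 : ℂ) 1) Metric.isBounded_ball ⟨0, by simp⟩ hgd.diffContOnCl
  rw [frontier_ball (0 : ℂ) one_ne_zero, mem_sphere_zero_iff_norm] at hζ1
  rw [closure_ball (0 : ℂ) one_ne_zero] at hmax
  have h4 : ‖g ζ0‖ ≤ ‖g ζ1‖ := hmax (by rwa [mem_closedBall_zero_iff])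
  have h5 : ‖ζ1 • u‖ = 1 := by rw [norm_smul, hζ1, hu, one_mul]
  refine ⟨repl J π i x (ζ1 • u), norm_repl h i x _ hx h5.le, by rw [pi_repl h, h5], ?_⟩
  have h6 : g ζ0 = π i (A (fun _ => x)) := by
    simp only [hg, hζu]
    congr 2
    funext _
    unfold repl
    abel
  rw [← h6]
  exact h4

theorem ge_aux (h : SupSum J π) {k : ℕ}
    [∀ i, Nontrivial (X i)] (A : ContinuousMultilinearMap ℂ (fun _ : Fin k => Z) Z)
    (hA : sSup (nset k A) = 1) (I : ℝ) (hI0 : 0 ≤ I) (hI : ∀ i, I ≤ sInf (iset k (X i))) :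
    I ≤ sSup (vset k A) := by
  have key : ∀ ε : ℝ, 0 < ε → ε < 1 → I * (1 - ε) ≤ sSup (vset k A) := by
    intro ε hε hε1
    obtain ⟨_, ⟨x, hx, rfl⟩, hxA⟩ := exists_lt_of_lt_csSup (s := nset k A) (b := 1 - ε)
      ⟨_, 0, by simp, rfl⟩ (by rw [hA]; linarith)
    obtain ⟨i, hi⟩ : ∃ i, 1 - ε < ‖π i (A (fun _ => x))‖ := by
      by_contra hcon
      push Not at hcon
      have := h.norm_le (A (fun _ => x)) (1 - ε) (by linarith) hcon
      linarith
    obtain ⟨x', hx'1, hx'2, hx'3⟩ := max_modulus h i A x hx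
    set u := π i x' with hu
    obtain ⟨ψ, hψ, hψu⟩ := exists_dual_unit u hx'2
    set S : X i →L[ℂ] Z := J i + ψ.smulRight (x' - J i u) with hS
    have hSx : ∀ z, S z = J i z + ψ z • (x' - J i u) := fun z => rfl
    have hSu : S u = x' := by rw [hSx, hψu, one_smul]; abel
    have hπS : ∀ z, π i (S z) = z := by
      intro z
      rw [hSx, map_add, map_smul, map_sub, h.pi_J, h.pi_J, ← hu, sub_self, smul_zero, add_zero]
    have hSn : ∀ z, ‖S z‖ ≤ ‖z‖ := by
      intro z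
      apply h.norm_le _ _ (norm_nonneg _)
      intro j
      by_cases hj : j = i
      · subst hj
        rw [hπS]
      · rw [hSx, map_add, map_smul, map_sub, h.pi_J_ne i j hj, h.pi_J_ne i j hj, zero_add, sub_zero,
          norm_smul]
        have h1 : ‖ψ z‖ ≤ ‖z‖ := by
          have := ψ.le_opNorm z
          rwa [hψ, one_mul] at this
        have h2 : ‖π j x'‖ ≤ 1 := (h.norm_pi j x').trans hx'1
        nlinarith [norm_nonneg (ψ z), norm_nonneg z]
    set B : ContinuousMultilinearMap ℂ (fun _ : Fin k => X i) (X i) :=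
      (π i).compContinuousMultilinearMap (A.compContinuousLinearMap (fun _ => S)) with hB
    have hBz : ∀ z, B (fun _ => z) = π i (A (fun _ => S z)) := fun z => rfl
    have hBn : 1 - ε < sSup (nset k B) := by
      refine lt_of_lt_of_le (hi.trans_le hx'3) ?_
      have h1 := le_nset B u hx'2.le
      rw [hBz, hSu] at h1
      exact h1
    have h1 := smul_scaling B (by linarith)
    have h2 : sSup (vset k B) ≤ sSup (vset k A) := by
      apply Real.sSup_le _ (vset_nonneg A)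
      rintro _ ⟨z, φ, hz, hφ, hφz, rfl⟩
      have h3 : ‖S z‖ = 1 := by
        apply le_antisymm
        · exact (hSn z).trans hz.le
        · have := h.norm_pi i (S z)
          rwa [hπS, hz] at this
      have h4 : (φ.comp (π i)) (S z) = 1 := by
        show φ (π i (S z)) = 1
        rw [hπS, hφz]
      have h5 : ‖φ.comp (π i)‖ = 1 := by
        apply le_antisymm
        · refine ContinuousLinearMap.opNorm_le_bound _ zero_le_one fun y => ?_
          show ‖φ (π i y)‖ ≤ 1 * ‖y‖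
          refine (φ.le_opNorm _).trans ?_
          rw [hφ]
          exact mul_le_mul_of_nonneg_left (h.norm_pi i y) zero_le_one
        · have := (φ.comp (π i)).le_opNorm (S z)
          rw [h4, h3, mul_one, norm_one] at this
          exact this
      have h6 := le_vset A (S z) (φ.comp (π i)) h3 h5 h4
      exact h6
    have h3 := hI i
    nlinarith
  by_contra hcon
  push Not at hcon
  have h1 : sSup (vset k A) < I := hcon
  have h2 := vset_nonneg A
  have hIpos : 0 < I := lt_of_le_of_lt h2 h1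
  set d := I - sSup (vset k A) with hd
  have hd0 : 0 < d := by linarith
  have h3 := key (min (1/2) (d / (2 * I))) (lt_min (by norm_num) (by positivity))
    (lt_of_le_of_lt (min_le_left _ _) (by norm_num))
  have h4 : I * min (1/2) (d / (2 * I)) ≤ d / 2 := by
    refine (mul_le_mul_of_nonneg_left (min_le_right _ _) hI0).trans ?_
    rw [mul_div_assoc', mul_comm, mul_div_assoc, ]
    have : I / (2 * I) = 1 / 2 := by field_simp
    rw [this]; linarith
  linarith

theorem le_aux (h : SupSum J π) {k : ℕ} (i : Λ)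
    (B : ContinuousMultilinearMap ℂ (fun _ : Fin k => X i) (X i))
    (hB : sSup (nset k B) = 1) : ∃ A : ContinuousMultilinearMap ℂ (fun _ : Fin k => Z) Z,
      sSup (nset k A) = 1 ∧ sSup (vset k A) ≤ sSup (vset k B) := by
  set A : ContinuousMultilinearMap ℂ (fun _ : Fin k => Z) Z :=
    (J i).compContinuousMultilinearMap (B.compContinuousLinearMap (fun _ => π i)) with hA
  have hAz : ∀ z, A (fun _ => z) = J i (B (fun _ => π i z)) := fun z => rfl
  refine ⟨A, ?_, ?_⟩
  · apply le_antisymm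
    · apply csSup_le
      · exact ⟨_, 0, by simp, rfl⟩
      · rintro _ ⟨x, hx, rfl⟩
        rw [hAz, norm_J h, ← hB]
        exact le_nset B _ ((h.norm_pi i x).trans hx)
    · rw [← hB]
      apply csSup_le
      · exact ⟨_, 0, by simp, rfl⟩
      · rintro _ ⟨w, hw, rfl⟩
        have h1 := le_nset A (J i w) (by rw [norm_J h]; exact hw)
        rw [hAz, norm_J h, h.pi_J] at h1
        exact h1
  · apply Real.sSup_le _ (vset_nonneg B)
    rintro _ ⟨x, Φ, hx, hΦ, hΦx, rfl⟩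
    rw [hAz]
    set a := π i x with ha
    set φ : X i →L[ℂ] ℂ := Φ.comp (J i) with hφ
    have hφw : ∀ w, φ w = Φ (J i w) := fun w => rfl
    rw [← hφw]
    have ha1 : ‖a‖ ≤ 1 := (h.norm_pi i x).trans hx.le
    -- key inequality
    have h1 : ∀ w : X i, ‖w‖ ≤ 1 → (φ w).re ≤ (φ a).re := by
      intro w hw
      have h2 := norm_repl h i x w hx.le hw
      have h3 : Φ (repl J π i x w) = 1 - φ a + φ w := by
        unfold repl
        rw [map_add, map_sub, hΦx, ← hφw, ← hφw]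
      have h4 := Φ.le_opNorm (repl J π i x w)
      rw [hΦ, one_mul, h3] at h4
      have h5 := (Complex.re_le_norm (1 - φ a + φ w)).trans (h4.trans h2)
      simp only [Complex.add_re, Complex.sub_re, Complex.one_re] at h5
      linarith
    have h2 : ∀ w : X i, ‖w‖ ≤ 1 → ‖φ w‖ ≤ (φ a).re := by
      intro w hw
      by_cases h0 : φ w = 0
      · rw [h0, norm_zero]
        have := h1 0 (by simp)
        simpa using this
      · have h3 : ‖φ w‖ ≠ 0 := norm_ne_zero_iff.2 h0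
        set c : ℂ := (starRingEnd ℂ (φ w)) * ((‖φ w‖ : ℂ)⁻¹) with hc
        have hcn : ‖c‖ = 1 := by
          rw [hc, norm_mul, RCLike.norm_conj, norm_inv, Complex.norm_real, norm_norm,
            mul_inv_cancel₀ h3]
        have h4 := h1 (c • w) (by rw [norm_smul, hcn, one_mul]; exact hw)
        have h5 : φ (c • w) = (‖φ w‖ : ℂ) := by
          rw [map_smul, smul_eq_mul, hc]
          have h6 : (starRingEnd ℂ (φ w)) * φ w = (‖φ w‖ : ℂ) ^ 2 := by
            rw [mul_comm, Complex.mul_conj, Complex.normSq_eq_norm_sq]; push_cast; rfl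
          have h7 : (‖φ w‖ : ℂ) ≠ 0 := by exact_mod_cast h3
          calc (starRingEnd ℂ (φ w)) * ((‖φ w‖ : ℂ)⁻¹) * φ w
              = ((starRingEnd ℂ (φ w)) * φ w) * ((‖φ w‖ : ℂ)⁻¹) := by ring
            _ = (‖φ w‖ : ℂ) ^ 2 * ((‖φ w‖ : ℂ)⁻¹) := by rw [h6]
            _ = (‖φ w‖ : ℂ) := by field_simp
        rw [h5, Complex.ofReal_re] at h4
        exact h4
    have hre0 : 0 ≤ (φ a).re := by
      have := h1 0 (by simp)
      simpa using this
    have hφn : ‖φ‖ ≤ (φ a).re := by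
      refine ContinuousLinearMap.opNorm_le_bound _ hre0 fun y => ?_
      by_cases hy : y = 0
      · rw [hy, map_zero, norm_zero, norm_zero, mul_zero]
      · have h3 : ‖y‖ ≠ 0 := norm_ne_zero_iff.2 hy
        have h4 := h2 (((‖y‖ : ℂ)⁻¹) • y) (by
          rw [norm_smul, norm_inv, Complex.norm_real, norm_norm, inv_mul_cancel₀ h3])
        rw [map_smul, norm_smul, norm_inv, Complex.norm_real, norm_norm,
          inv_mul_le_iff₀ (by positivity)] at h4
        linarith
    have hφn1 : ‖φ‖ ≤ 1 := by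
      refine ContinuousLinearMap.opNorm_le_bound _ zero_le_one fun y => ?_
      rw [hφw]
      refine (Φ.le_opNorm _).trans ?_
      rw [hΦ, norm_J h]
    by_cases h0 : φ = 0
    · rw [h0]
      simp
      exact vset_nonneg B
    · have hφ0 : 0 < ‖φ‖ := norm_pos_iff.2 h0
      have h3 := φ.le_opNorm a
      have h4 := Complex.re_le_norm (φ a)
      have h5 : ‖a‖ = 1 := by
        apply le_antisymm ha1
        by_contra hcon
        push Not at hcon
        nlinarith
      have h6 : φ a = (‖φ‖ : ℂ) := by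
        rw [h5, mul_one] at h3
        have h7 : (φ a).re = ‖φ‖ := le_antisymm (h4.trans h3) hφn
        have h8 : ‖φ a‖ = ‖φ‖ := le_antisymm h3 (hφn.trans h4)
        apply Complex.ext
        · rw [h7, Complex.ofReal_re]
        · rw [Complex.ofReal_im]
          have h9 := Complex.sq_norm (φ a)
          rw [Complex.normSq_apply, h8, h7] at h9
          have h10 : (φ a).im * (φ a).im = 0 := by linarith
          exact mul_self_eq_zero.1 h10
      have h7 : (‖φ‖ : ℂ) ≠ 0 := by exact_mod_cast hφ0.ne'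
      set φ' : X i →L[ℂ] ℂ := ((‖φ‖ : ℂ)⁻¹) • φ with hφ'
      have h8 : ‖φ'‖ = 1 := by
        rw [hφ', norm_smul, norm_inv, Complex.norm_real, norm_norm, inv_mul_cancel₀ hφ0.ne']
      have h9 : φ' a = 1 := by
        show ((‖φ‖ : ℂ)⁻¹) • φ a = 1
        rw [h6, smul_eq_mul, inv_mul_cancel₀ h7]
      have h10 := le_vset B a φ' h5 h8 h9
      have h11 : φ' (B (fun _ => a)) = ((‖φ‖ : ℂ)⁻¹) * φ (B (fun _ => a)) := rfl
      rw [h11, norm_mul, norm_inv, Complex.norm_real, norm_norm, inv_mul_le_iff₀ hφ0] at h10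
      refine h10.trans ?_
      nlinarith [vset_nonneg B]

theorem main_general [Nonempty Λ] [∀ i, Nontrivial (X i)] (h : SupSum J π) (k : ℕ) :
    sInf (iset k Z) = ⨅ i, sInf (iset k (X i)) := by
  have hbd : BddBelow (Set.range fun i => sInf (iset k (X i))) := by
    refine ⟨0, ?_⟩
    rintro _ ⟨i, rfl⟩
    exact iset_nonneg
  apply le_antisymm
  · apply le_ciInf
    intro i
    apply le_csInf iset_nonempty
    rintro _ ⟨B, hB, rfl⟩
    obtain ⟨A, hA1, hA2⟩ := le_aux h i B hB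
    exact (csInf_le iset_bdd ⟨A, hA1, rfl⟩).trans hA2
  · have hne : (iset k Z).Nonempty := by
      obtain ⟨i⟩ := ‹Nonempty Λ›
      obtain ⟨_, B, hB, rfl⟩ := iset_nonempty (k := k) (Z := X i)
      obtain ⟨A, hA1, hA2⟩ := le_aux h i B hB
      exact ⟨_, A, hA1, rfl⟩
    apply le_csInf hne
    rintro _ ⟨A, hA, rfl⟩
    exact ge_aux h A hA _ (le_ciInf fun i => iset_nonneg) (fun i => ciInf_le hbd i)

end main

end Pool.Agent.H130R3.PNI
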