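import Mathlib

set_option autoImplicit false

open Filter Topology

namespace Pool.Agent.H130R3.PiBase

variable {X : Type*} [NormedAddCommGroup X] [NormedSpace ℝ X]

/-- sign change hypothesis -/
def SignUncond (e : ℕ → X) : Prop :=
  ∀ (s : Finset ℕ) (a ε : ℕ → ℝ), (∀ n, ε n = 1 ∨ ε n = -1) →
    ‖∑ n ∈ s, (ε n * a n) • e n‖ ≤ ‖∑ n ∈ s, a n • e n‖

/-- finite combination -/
noncomputable def V (e : ℕ → X) : (ℕ →₀ ℝ) →ₗ[ℝ] X := Finsupp.linearCombination ℝ e

theorem V_eq_sum (e : ℕ → X) (c : ℕ →₀ ℝ) (s : Finset ℕ) (h : c.support ⊆ s) :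
    V e c = ∑ i ∈ s, c i • e i := by
  unfold V
  rw [Finsupp.linearCombination_apply]
  exact Finsupp.sum_of_support_subset _ h _ (by simp)

theorem norm_sub_le {e : ℕ → X} (hu : SignUncond e) (c d : ℕ →₀ ℝ)
    (h : ∀ i, c i = 0 ∨ d i = 0) : ‖V e (c - d)‖ ≤ ‖V e (c + d)‖ := by
  classical
  set s := c.support ∪ d.support with hs
  have h1 : (c + d).support ⊆ s := Finsupp.support_add
  have h2 : (c - d).support ⊆ s := by
    intro i hi
    rw [Finsupp.mem_support_iff, Finsupp.sub_apply] at hi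
    rw [hs, Finset.mem_union, Finsupp.mem_support_iff, Finsupp.mem_support_iff]
    by_contra h3
    push Not at h3
    apply hi
    rw [h3.1, h3.2, sub_zero]
  rw [V_eq_sum e _ s h1, V_eq_sum e _ s h2]
  have h3 := hu s (fun i => (c + d) i) (fun i => if c i = 0 then -1 else 1)
    (fun n => by by_cases h : c n = 0 <;> simp [h])
  refine le_trans (le_of_eq ?_) h3
  congr 1
  refine Finset.sum_congr rfl fun i _ => ?_
  congr 1
  rcases h i with h | h
  · simp [h]
  · by_cases h' : c i = 0 <;> simp [h, h']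

theorem norm_le_add {e : ℕ → X} (hu : SignUncond e) (c d : ℕ →₀ ℝ)
    (h : ∀ i, c i = 0 ∨ d i = 0) : ‖V e c‖ ≤ ‖V e (c + d)‖ := by
  have h1 := norm_sub_le hu c d h
  have h2 : (2:ℝ) • V e c = V e (c + d) + V e (c - d) := by
    rw [← map_smul, ← map_add]
    congr 1
    rw [two_smul]
    abel
  have h3 : ‖(2:ℝ) • V e c‖ ≤ ‖V e (c + d)‖ + ‖V e (c + d)‖ := by
    rw [h2]
    exact (norm_add_le _ _).trans (by linarith)
  rw [norm_smul, Real.norm_of_nonneg (by norm_num : (0:ℝ) ≤ 2)] at h3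
  linarith

/-- weight function -/
noncomputable def G (w : ℕ → ℝ) (c : ℕ →₀ ℝ) : ℝ := c.sum fun i a => w i * |a|

theorem G_eq_sum (w : ℕ → ℝ) (c : ℕ →₀ ℝ) (s : Finset ℕ) (h : c.support ⊆ s) :
    G w c = ∑ i ∈ s, w i * |c i| := by
  unfold G
  exact Finsupp.sum_of_support_subset _ h _ (by simp)

theorem G_add (w : ℕ → ℝ) (c d : ℕ →₀ ℝ) (h : ∀ i, c i = 0 ∨ d i = 0) :
    G w (c + d) = G w c + G w d := by
  classical
  rw [G_eq_sum w (c + d) (c.support ∪ d.support) Finsupp.support_add,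
    G_eq_sum w c (c.support ∪ d.support) Finset.subset_union_left,
    G_eq_sum w d (c.support ∪ d.support) Finset.subset_union_right, ← Finset.sum_add_distrib]
  refine Finset.sum_congr rfl fun i _ => ?_
  rw [Finsupp.add_apply]
  rcases h i with h | h <;> simp [h]

theorem G_smul (w : ℕ → ℝ) (r : ℝ) (c : ℕ →₀ ℝ) : G w (r • c) = |r| * G w c := by
  classical
  rw [G_eq_sum w (r • c) c.support Finsupp.support_smul, G_eq_sum w c c.support subset_rfl,
    Finset.mul_sum]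
  refine Finset.sum_congr rfl fun i _ => ?_
  rw [Finsupp.smul_apply, smul_eq_mul, abs_mul]
  ring

theorem G_neg (w : ℕ → ℝ) (c : ℕ →₀ ℝ) : G w (-c) = G w c := by
  have := G_smul w (-1) c
  simpa using this

theorem G_nonneg (w : ℕ → ℝ) (hw : ∀ i, 0 ≤ w i) (c : ℕ →₀ ℝ) : 0 ≤ G w c := by
  rw [G_eq_sum w c c.support subset_rfl]
  exact Finset.sum_nonneg fun i _ => mul_nonneg (hw i) (abs_nonneg _)

theorem G_le_single {e : ℕ → X} (hu : SignUncond e) (g : X →L[ℝ] ℝ) (c : ℕ →₀ ℝ) :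
    G (fun i => |g (e i)|) c ≤ ‖g‖ * ‖V e c‖ := by
  classical
  rw [G_eq_sum _ c c.support subset_rfl, V_eq_sum e c c.support subset_rfl]
  set ε : ℕ → ℝ := fun i => if 0 ≤ c i * g (e i) then 1 else -1 with hε
  have h1 : ∀ n, ε n = 1 ∨ ε n = -1 := fun n => by
    by_cases h : 0 ≤ c n * g (e n) <;> simp [hε, h]
  have h2 := hu c.support c ε h1
  have h3 : ∑ i ∈ c.support, |g (e i)| * |c i| = g (∑ n ∈ c.support, (ε n * c n) • e n) := by
    rw [map_sum]
    refine Finset.sum_congr rfl fun i _ => ?_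
    rw [map_smul, smul_eq_mul]
    by_cases h : 0 ≤ c i * g (e i)
    · simp only [hε, h, if_true]
      rw [← abs_mul, mul_comm (g (e i)), abs_of_nonneg h]
      ring
    · simp only [hε, h, if_false]
      rw [← abs_mul, mul_comm (g (e i)), abs_of_neg (not_le.1 h)]
      ring
  rw [h3]
  exact (le_abs_self _).trans ((g.le_opNorm _).trans
    (mul_le_mul_of_nonneg_left h2 (norm_nonneg _)))

theorem G_sum {ι : Type*} (s : Finset ι) (w : ι → ℕ → ℝ) (c : ℕ →₀ ℝ) :
    G (fun i => ∑ j ∈ s, w j i) c = ∑ j ∈ s, G (w j) c := by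
  simp only [G_eq_sum _ c c.support subset_rfl]
  rw [Finset.sum_comm]
  refine Finset.sum_congr rfl fun i _ => ?_
  rw [Finset.sum_mul]

theorem main_lemma {e : ℕ → X} (hu : SignUncond e) {ι : Type*} [Fintype ι]
    (g : ι → X →L[ℝ] ℝ) (u0 : ℕ →₀ ℝ) (h0 : ‖V e u0‖ < 1) (η : ℝ) (hη : 0 < η) :
    ∃ (z : ℕ →₀ ℝ) (N : ℕ), (∀ i, N ≤ i → u0 i = 0 ∧ z i = 0) ∧ ‖V e (u0 + z)‖ < 1 ∧
      (∀ j, |g j (V e z)| ≤ η) ∧
      ∀ t : ℕ →₀ ℝ, (∀ i < N, t i = 0) → ‖V e (u0 + z + t)‖ < 1 →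
        G (fun i => ∑ j, |g j (e i)|) t ≤ η := by
  classical
  set w : ℕ → ℝ := fun i => ∑ j, |g j (e i)| with hw
  set C : ℝ := ∑ j, ‖g j‖ with hC
  have hC0 : 0 ≤ C := Finset.sum_nonneg fun j _ => norm_nonneg _
  have hGC : ∀ c, G w c ≤ C * ‖V e c‖ := by
    intro c
    rw [hw, G_sum, hC, Finset.sum_mul]
    exact Finset.sum_le_sum fun j _ => G_le_single hu (g j) c
  have hw0 : ∀ i, 0 ≤ w i := fun i => Finset.sum_nonneg fun j _ => abs_nonneg _
  have hbound : ∀ c : ℕ →₀ ℝ, ∃ N : ℕ, ∀ i, N ≤ i → c i = 0 := by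
    intro c
    obtain ⟨N, hN⟩ := c.support.exists_nat_subset_range
    refine ⟨N, fun i hi => ?_⟩
    by_contra h
    have := hN (Finsupp.mem_support_iff.2 h)
    rw [Finset.mem_range] at this
    omega
  set T : ℕ → Set (ℕ →₀ ℝ) := fun N => {t | (∀ i < N, t i = 0) ∧ ‖V e (u0 + t)‖ < 1} with hT
  have hTzero : ∀ N, (0 : ℕ →₀ ℝ) ∈ T N := fun N => ⟨fun i _ => rfl, by simpa using h0⟩
  have hTnorm : ∀ N, ∀ t ∈ T N, ‖V e t‖ ≤ 2 := by
    intro N t ht
    have h1 : V e t = V e (u0 + t) - V e u0 := by rw [map_add]; abel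
    rw [h1]
    have h2 := _root_.norm_sub_le (V e (u0 + t)) (V e u0)
    have h3 := ht.2
    linarith
  have hbdd : ∀ N, BddAbove (G w '' T N) := by
    intro N
    refine ⟨C * 2, ?_⟩
    rintro _ ⟨t, ht, rfl⟩
    exact (hGC t).trans (mul_le_mul_of_nonneg_left (hTnorm N t ht) hC0)
  set M : ℕ → ℝ := fun N => sSup (G w '' T N) with hM
  have hMle : ∀ N, ∀ t ∈ T N, G w t ≤ M N := fun N t ht => le_csSup (hbdd N) ⟨t, ht, rfl⟩
  have hanti : Antitone M := by
    intro a b hab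
    apply csSup_le_csSup (hbdd a) (Set.Nonempty.image _ ⟨0, hTzero b⟩)
    apply Set.image_mono
    intro t ht
    exact ⟨fun i hi => ht.1 i (lt_of_lt_of_le hi hab), ht.2⟩
  have hM0 : ∀ N, 0 ≤ M N := fun N => (G_nonneg w hw0 0).trans (hMle N 0 (hTzero N))
  have hlim := tendsto_atTop_ciInf hanti ⟨0, by rintro _ ⟨N, rfl⟩; exact hM0 N⟩
  set L := ⨅ i, M i with hL
  have hLle : ∀ N, L ≤ M N := fun N => ciInf_le ⟨0, by rintro _ ⟨N, rfl⟩; exact hM0 N⟩ N
  obtain ⟨N0, hN0⟩ := hbound u0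
  have hev : ∀ᶠ N in atTop, M N < L + η / 8 := hlim.eventually_lt_const (by linarith)
  obtain ⟨N1, hN1⟩ := (hev.and (eventually_ge_atTop N0)).exists
  have hex : ∀ N, ∃ t ∈ T (max N N1), L - η / 4 < G w t := by
    intro N
    have h1 : L - η / 4 < sSup (G w '' T (max N N1)) := by
      have := hLle (max N N1)
      have h2 : sSup (G w '' T (max N N1)) = M (max N N1) := rfl
      rw [h2]; linarith
    obtain ⟨_, ⟨t, ht, rfl⟩, h2⟩ := exists_lt_of_lt_csSup
      (Set.Nonempty.image _ ⟨0, hTzero _⟩) h1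
    exact ⟨t, ht, h2⟩
  choose y hyT hyG using hex
  set v : ℕ → (ι → ℝ) := fun N j => g j (V e (y N)) with hv
  have hvb : ∀ n, v n ∈ Metric.closedBall (0 : ι → ℝ) (C * 2) := by
    intro n
    rw [mem_closedBall_zero_iff, pi_norm_le_iff_of_nonneg (by positivity)]
    intro j
    rw [Real.norm_eq_abs]
    have h1 : |g j (V e (y n))| ≤ ‖g j‖ * ‖V e (y n)‖ := (g j).le_opNorm _
    have h2 : ‖g j‖ ≤ C := Finset.single_le_sum (f := fun j => ‖g j‖)
      (fun j _ => norm_nonneg _) (Finset.mem_univ j)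
    exact h1.trans (mul_le_mul h2 (hTnorm _ _ (hyT n)) (norm_nonneg _) hC0)
  obtain ⟨a, -, φ, hφ, hφa⟩ := tendsto_subseq_of_bounded Metric.isBounded_closedBall hvb
  have hev2 : ∀ᶠ k in atTop, dist (v (φ k)) a < η := by
    have := Metric.tendsto_nhds.1 hφa η hη
    exact this
  obtain ⟨K, hK⟩ := eventually_atTop.1 hev2
  obtain ⟨N2, hN2⟩ := hbound (y (φ K))
  set k' := max K N2 with hk'
  have hk'1 : N2 ≤ φ k' := (le_max_right _ _).trans hφ.le_apply
  set ya := y (φ K) with hya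
  set yb := y (φ k') with hyb
  have hyb0 : ∀ i < N2, yb i = 0 := fun i hi => (hyT (φ k')).1 i (lt_of_lt_of_le hi
    (hk'1.trans (le_max_left _ _)))
  have hybN1 : ∀ i < N1, yb i = 0 := fun i hi => (hyT (φ k')).1 i (lt_of_lt_of_le hi
    (le_max_right _ _))
  have hyaN1 : ∀ i < N1, ya i = 0 := fun i hi => (hyT (φ K)).1 i (lt_of_lt_of_le hi
    (le_max_right _ _))
  have hdis : ∀ i, ya i = 0 ∨ yb i = 0 := by
    intro i
    by_cases h : i < N2
    · exact Or.inr (hyb0 i h)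
    · exact Or.inl (hN2 i (not_lt.1 h))
  have hdisu : ∀ i, u0 i = 0 ∨ yb i = 0 := by
    intro i
    by_cases h : i < N1
    · exact Or.inr (hybN1 i h)
    · exact Or.inl (hN0 i (hN1.2.trans (not_lt.1 h)))
  set z : ℕ →₀ ℝ := (1/2 : ℝ) • (ya - yb) with hz
  obtain ⟨N3, hN3⟩ := hbound yb
  refine ⟨z, max N1 (max N2 N3), ?_, ?_, ?_, ?_⟩
  · intro i hi
    refine ⟨hN0 i (hN1.2.trans ((le_max_left _ _).trans hi)), ?_⟩
    rw [hz, Finsupp.smul_apply, Finsupp.sub_apply,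
      hN2 i (((le_max_left _ _).trans (le_max_right _ _)).trans hi),
      hN3 i (((le_max_right _ _).trans (le_max_right _ _)).trans hi)]
    simp
  · have h1 : V e (u0 + z) = (1/2 : ℝ) • V e (u0 + ya) + (1/2 : ℝ) • V e (u0 - yb) := by
      rw [← map_smul, ← map_smul, ← map_add]
      congr 1
      rw [hz]
      module
    rw [h1]
    have h2 := norm_sub_le hu u0 yb hdisu
    have h3 : ‖V e (u0 + ya)‖ < 1 := (hyT (φ K)).2
    have h4 : ‖V e (u0 + yb)‖ < 1 := (hyT (φ k')).2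
    have h5 := norm_add_le ((1/2 : ℝ) • V e (u0 + ya)) ((1/2 : ℝ) • V e (u0 - yb))
    rw [norm_smul, norm_smul, Real.norm_of_nonneg (by norm_num : (0:ℝ) ≤ 1/2)] at h5
    linarith
  · intro j
    have h1 : g j (V e z) = (1/2) * (v (φ K) j - v (φ k') j) := by
      rw [hz, map_smul, map_smul, map_sub, map_sub, smul_eq_mul]
    have h2 : |v (φ K) j - a j| ≤ dist (v (φ K)) a := by
      rw [← Real.dist_eq]; exact dist_le_pi_dist _ _ j
    have h3 : |v (φ k') j - a j| ≤ dist (v (φ k')) a := by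
      rw [← Real.dist_eq]; exact dist_le_pi_dist _ _ j
    have h4 := hK K le_rfl
    have h5 := hK k' (le_max_left _ _)
    rw [h1, abs_le]
    have h6 := abs_le.1 h2
    have h7 := abs_le.1 h3
    constructor <;> linarith [h6.1, h6.2, h7.1, h7.2]
  · intro t ht htn
    have hGz : G w z = (1/2) * (G w ya + G w yb) := by
      rw [hz, G_smul, sub_eq_add_neg, G_add w ya (-yb) (by intro i; simpa using hdis i), G_neg]
      norm_num
    have hzt : z + t ∈ T N1 := by
      refine ⟨fun i hi => ?_, by rw [← add_assoc]; exact htn⟩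
      rw [Finsupp.add_apply, hz, Finsupp.smul_apply, Finsupp.sub_apply, hyaN1 i hi, hybN1 i hi,
        ht i (lt_of_lt_of_le hi (le_max_left _ _))]
      simp
    have h1 := hMle N1 _ hzt
    have hdz : ∀ i, z i = 0 ∨ t i = 0 := by
      intro i
      by_cases h : i < max N1 (max N2 N3)
      · exact Or.inr (ht i h)
      · left
        rw [hz, Finsupp.smul_apply, Finsupp.sub_apply,
          hN2 i (((le_max_left _ _).trans (le_max_right _ _)).trans (not_lt.1 h)),
          hN3 i (((le_max_right _ _).trans (le_max_right _ _)).trans (not_lt.1 h))]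
        simp
    rw [G_add w z t hdz, hGz] at h1
    have h2 : L - η / 4 < G w ya := hyG (φ K)
    have h3 : L - η / 4 < G w yb := hyG (φ k')
    have h4 := hN1.1
    linarith

end Pool.Agent.H130R3.PiBase
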