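import Pool.Agent.H130R3.PiBase

set_option autoImplicit false

open Filter Topology

namespace Pool.Agent.H130R3.PiBase

variable {X : Type*} [NormedAddCommGroup X] [NormedSpace ℝ X]

theorem norm_sum_subset {e : ℕ → X} (hu : SignUncond e) (a : ℕ → ℝ) (s t : Finset ℕ) (h : s ⊆ t) :
    ‖∑ i ∈ s, a i • e i‖ ≤ ‖∑ i ∈ t, a i • e i‖ := by
  classical
  have h1 := hu t a (fun i => if i ∈ s then 1 else -1) (fun n => by by_cases h : n ∈ s <;> simp [h])
  have h2 : (2:ℝ) • ∑ i ∈ s, a i • e i = ∑ i ∈ t, a i • e i +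
      ∑ i ∈ t, ((if i ∈ s then (1:ℝ) else -1) * a i) • e i := by
    rw [← Finset.sum_add_distrib, Finset.smul_sum, ← Finset.sum_subset h]
    · refine Finset.sum_congr rfl fun i hi => ?_
      simp only [hi, if_true]
      module
    · intro i _ hi
      simp only [hi, if_false]
      module
  have h3 := norm_add_le (∑ i ∈ t, a i • e i) (∑ i ∈ t, ((if i ∈ s then (1:ℝ) else -1) * a i) • e i)
  rw [← h2, norm_smul, Real.norm_of_nonneg (by norm_num : (0:ℝ) ≤ 2)] at h3
  linarith

theorem partial_le {e : ℕ → X} (hu : SignUncond e) (a : ℕ → ℝ) (x : X)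
    (h : HasSum (fun n => a n • e n) x) (s : Finset ℕ) : ‖∑ i ∈ s, a i • e i‖ ≤ ‖x‖ := by
  have h1 : Tendsto (fun t : Finset ℕ => ‖∑ i ∈ t, a i • e i‖) atTop (𝓝 ‖x‖) := h.norm
  refine ge_of_tendsto h1 ?_
  filter_upwards [eventually_ge_atTop s] with t ht
  exact norm_sum_subset hu a s t ht

theorem exists_coord (e : ℕ → X) (hb : ∀ x : X, ∃! a : ℕ → ℝ, HasSum (fun n => a n • e n) x)
    (hu : SignUncond e) :
    ∃ f : ℕ → X →L[ℝ] ℝ, ∀ x, HasSum (fun n => f n x • e n) x := by
  classical
  choose a ha hauniq using hb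
  have he : ∀ n, e n ≠ 0 := by
    intro n hn
    have h1 : HasSum (fun i => (a 0 i + (if i = n then 1 else 0)) • e i) (0 : X) := by
      refine (ha 0).congr_fun ?_ |> fun h => h
      intro i
      by_cases h : i = n
      · subst h; simp [hn]
      · simp [h]
    have h2 := hauniq 0 _ h1
    have h3 := congrFun h2 n
    simp at h3
  have hadd : ∀ x y n, a (x + y) n = a x n + a y n := by
    intro x y n
    have h1 : HasSum (fun n => (a x n + a y n) • e n) (x + y) := by
      have := (ha x).add (ha y)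
      refine this.congr_fun ?_ |> fun h => h
      intro i
      rw [add_smul]
    have h2 := hauniq (x + y) (fun n => a x n + a y n) h1
    exact (congrFun h2 n).symm
  have hsmul : ∀ (r : ℝ) x n, a (r • x) n = r * a x n := by
    intro r x n
    have h1 : HasSum (fun n => (r * a x n) • e n) (r • x) := by
      have := (ha x).const_smul r
      refine this.congr_fun ?_ |> fun h => h
      intro i
      rw [mul_smul]
    have h2 := hauniq (r • x) (fun n => r * a x n) h1
    exact (congrFun h2 n).symm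
  have hbound : ∀ n x, |a x n| ≤ ‖e n‖⁻¹ * ‖x‖ := by
    intro n x
    have h1 := partial_le hu (a x) x (ha x) {n}
    rw [Finset.sum_singleton, norm_smul, Real.norm_eq_abs] at h1
    have h2 : 0 < ‖e n‖ := norm_pos_iff.2 (he n)
    rw [inv_mul_eq_div, le_div_iff₀ h2]
    exact h1
  refine ⟨fun n => LinearMap.mkContinuous ⟨⟨fun x => a x n, fun x y => hadd x y n⟩,
    fun r x => hsmul r x n⟩ (‖e n‖⁻¹) (fun x => hbound n x), fun x => ha x⟩

end Pool.Agent.H130R3.PiBase
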