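import Pool.Agent.H130R3.PiBase2

set_option autoImplicit false

open Filter Topology

namespace Pool.Agent.H130R3.PiBase

variable {X : Type*} [NormedAddCommGroup X] [NormedSpace ℝ X]

/-- finitely supported part of the coefficient sequence, indices in `[A, B)`. -/
noncomputable def cut (a : ℕ → ℝ) (A B : ℕ) : ℕ →₀ ℝ :=
  Finsupp.onFinset (Finset.Ico A B) (fun i => if i ∈ Finset.Ico A B then a i else 0) (by
    intro i hi
    by_contra h
    exact hi (if_neg h))

theorem cut_apply (a : ℕ → ℝ) (A B i : ℕ) :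
    cut a A B i = if i ∈ Finset.Ico A B then a i else 0 := rfl

theorem V_cut (e : ℕ → X) (a : ℕ → ℝ) (A B : ℕ) :
    V e (cut a A B) = ∑ i ∈ Finset.Ico A B, a i • e i := by
  have h : (cut a A B).support ⊆ Finset.Ico A B := by
    unfold cut
    exact Finsupp.support_onFinset_subset
  rw [V_eq_sum e _ (Finset.Ico A B) h]
  refine Finset.sum_congr rfl fun i hi => ?_
  rw [cut_apply, if_pos hi]

theorem exists_approx {e : ℕ → X} (f : ℕ → X →L[ℝ] ℝ)
    (hf : ∀ x, HasSum (fun n => f n x • e n) x) (x : X) (hx : ‖x‖ ≤ 1) (η : ℝ) (hη : 0 < η) :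
    ∃ u0 : ℕ →₀ ℝ, ‖V e u0‖ < 1 ∧ ‖V e u0 - x‖ < η := by
  set θ : ℝ := min (1/2) (η / 2) with hθ
  have hθ0 : 0 < θ := lt_min (by norm_num) (by linarith)
  have hθ1 : θ ≤ 1/2 := min_le_left _ _
  have hθ2 : θ ≤ η / 2 := min_le_right _ _
  set y : X := (1 - θ) • x with hy
  have hyn : ‖y‖ < 1 := by
    rw [hy, norm_smul, Real.norm_of_nonneg (by linarith)]
    nlinarith [norm_nonneg x]
  have hyx : ‖y - x‖ ≤ η / 2 := by
    have : y - x = (-θ) • x := by rw [hy]; module
    rw [this, norm_smul, Real.norm_eq_abs, abs_neg, abs_of_pos hθ0]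
    nlinarith [norm_nonneg x]
  have h1 := (hf y).tendsto_sum_nat
  have h2 := Metric.tendsto_nhds.1 h1 (min (1 - ‖y‖) (η/2)) (lt_min (by linarith) (by linarith))
  obtain ⟨N, hN⟩ := h2.exists
  rw [dist_eq_norm] at hN
  have h3 : V e (cut (fun i => f i y) 0 N) = ∑ i ∈ Finset.range N, f i y • e i := by
    rw [V_cut, ← Finset.range_eq_Ico]
  refine ⟨cut (fun i => f i y) 0 N, ?_, ?_⟩
  · rw [h3]
    have h4 : ∑ i ∈ Finset.range N, f i y • e i = y + (∑ i ∈ Finset.range N, f i y • e i - y) := by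
      abel
    rw [h4]
    have h5 := norm_add_le y (∑ i ∈ Finset.range N, f i y • e i - y)
    have h6 := lt_of_lt_of_le hN (min_le_left _ _)
    linarith
  · rw [h3]
    have h4 : ∑ i ∈ Finset.range N, f i y • e i - x
        = (∑ i ∈ Finset.range N, f i y • e i - y) + (y - x) := by abel
    rw [h4]
    have h5 := norm_add_le (∑ i ∈ Finset.range N, f i y • e i - y) (y - x)
    have h6 := lt_of_lt_of_le hN (min_le_right _ _)
    linarith

theorem coord_V {e : ℕ → X} (hb : ∀ x : X, ∃! a : ℕ → ℝ, HasSum (fun n => a n • e n) x)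
    (f : ℕ → X →L[ℝ] ℝ) (hf : ∀ x, HasSum (fun n => f n x • e n) x) (u : ℕ →₀ ℝ) (i : ℕ) :
    f i (V e u) = u i := by
  have h1 : HasSum (fun n => u n • e n) (V e u) := by
    rw [V_eq_sum e u u.support subset_rfl]
    refine hasSum_sum_of_ne_finset_zero fun b hb => ?_
    rw [Finsupp.notMem_support_iff.1 hb, zero_smul]
  exact congrFun ((hb (V e u)).unique (hf (V e u)) h1) i

theorem box_lemma {e : ℕ → X} (hb : ∀ x : X, ∃! a : ℕ → ℝ, HasSum (fun n => a n • e n) x)
    (hu : SignUncond e) (f : ℕ → X →L[ℝ] ℝ)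
    (hf : ∀ x, HasSum (fun n => f n x • e n) x)
    (I : Finset (X →L[ℝ] ℝ)) (x : X) (hx : ‖x‖ ≤ 1) (ε : ℝ) (hε : 0 < ε) :
    ∃ (c : ℕ → ℝ) (N : ℕ) (δ : ℝ), 0 < δ ∧ (∃ u : X, ‖u‖ ≤ 1 ∧ ∀ i < N, |f i u - c i| < δ / 2) ∧
      ∀ y : X, ‖y‖ ≤ 1 → (∀ i < N, |f i y - c i| < δ) → ∀ g ∈ I, |g y - g x| < ε := by
  classical
  set C : ℝ := ∑ g ∈ I, ‖g‖ with hC
  have hC0 : 0 ≤ C := Finset.sum_nonneg fun j _ => norm_nonneg _
  have hgC : ∀ g ∈ I, ‖g‖ ≤ C := fun g hg =>
    Finset.single_le_sum (f := fun g : X →L[ℝ] ℝ => ‖g‖) (fun j _ => norm_nonneg _) hg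
  set η : ℝ := ε / 8 with hη
  have hη0 : 0 < η := by positivity
  obtain ⟨u0, hu01, hu02⟩ := exists_approx f hf x hx (ε / (8 * (C + 1))) (by positivity)
  obtain ⟨z, N, hN, hz1, hz2, hz3⟩ := main_lemma hu (ι := I) (fun g => (g : X →L[ℝ] ℝ)) u0 hu01 η hη0
  set u : ℕ →₀ ℝ := u0 + z with hu'
  set ρ : ℝ := 1 - ‖V e u‖ with hρ
  have hρ0 : 0 < ρ := by linarith
  set E : ℝ := ∑ i ∈ Finset.range N, ‖e i‖ with hE
  have hE0 : 0 ≤ E := Finset.sum_nonneg fun j _ => norm_nonneg _
  set κ : ℝ := min (ρ / 2) (ε / (8 * (C + 1))) with hκ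
  have hκ0 : 0 < κ := lt_min (by positivity) (by positivity)
  refine ⟨fun i => u i, N, κ / (E + 1), by positivity, ⟨V e u, by linarith, ?_⟩, ?_⟩
  · intro i hi
    rw [coord_V hb f hf, sub_self, abs_zero]
    positivity
  · intro y hy hyN g hg
    set P : ℕ → X := fun K => ∑ i ∈ Finset.range K, f i y • e i with hP
    have hPn : ∀ K, ‖P K‖ ≤ 1 := fun K => (partial_le hu (fun i => f i y) y (hf y) _).trans hy
    have hVu : V e u = ∑ i ∈ Finset.range N, u i • e i := V_eq_sum e u _ (by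
      intro i hi
      rw [Finsupp.mem_support_iff] at hi
      rw [Finset.mem_range]
      by_contra h
      apply hi
      rw [hu', Finsupp.add_apply, (hN i (not_lt.1 h)).1, (hN i (not_lt.1 h)).2, add_zero])
    have hPu : ‖V e u - P N‖ ≤ κ := by
      rw [hVu, ← Finset.sum_sub_distrib]
      refine (norm_sum_le _ _).trans ?_
      have h1 : ∀ i ∈ Finset.range N, ‖u i • e i - f i y • e i‖ ≤ κ / (E + 1) * ‖e i‖ := by
        intro i hi
        rw [← sub_smul, norm_smul, Real.norm_eq_abs, abs_sub_comm]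
        exact mul_le_mul_of_nonneg_right (hyN i (Finset.mem_range.1 hi)).le (norm_nonneg _)
      refine (Finset.sum_le_sum h1).trans ?_
      rw [← Finset.mul_sum, div_mul_eq_mul_div, div_le_iff₀ (by positivity)]
      nlinarith
    have htail : ∀ K, N ≤ K → |g (P K - P N)| ≤ 2 * η := by
      intro K hK
      set t : ℕ →₀ ℝ := (1/2 : ℝ) • cut (fun i => f i y) N K with ht
      have hVt : V e t = (1/2 : ℝ) • (P K - P N) := by
        rw [ht, map_smul, V_cut, Finset.sum_Ico_eq_sub _ hK]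
      have h1 : ∀ i < N, t i = 0 := by
        intro i hi
        rw [ht, Finsupp.smul_apply, cut_apply, if_neg, smul_zero]
        rw [Finset.mem_Ico]
        omega
      have h2 : ‖V e (u + t)‖ < 1 := by
        have h3 : V e (u + t) = (1/2 : ℝ) • P K + (1/2 : ℝ) • V e u + (1/2 : ℝ) • (V e u - P N) := by
          rw [map_add, hVt]; module
        rw [h3]
        have h4 := norm_add₃_le (a := (1/2 : ℝ) • P K) (b := (1/2 : ℝ) • V e u)
          (c := (1/2 : ℝ) • (V e u - P N))
        rw [norm_smul, norm_smul, norm_smul, Real.norm_of_nonneg (by norm_num : (0:ℝ) ≤ 1/2)] at h4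
        have h5 := hPn K
        have h6 : κ ≤ ρ / 2 := min_le_left _ _
        linarith
      have h3 := hz3 t h1 h2
      have h4 : |g (V e t)| ≤ η := by
        refine le_trans ?_ h3
        rw [V_eq_sum e t t.support subset_rfl, G_eq_sum _ t t.support subset_rfl, map_sum]
        refine (Finset.abs_sum_le_sum_abs _ _).trans (Finset.sum_le_sum fun i _ => ?_)
        rw [map_smul, smul_eq_mul, abs_mul, mul_comm]
        refine mul_le_mul_of_nonneg_right ?_ (abs_nonneg _)
        exact Finset.single_le_sum (f := fun j : I => |(j : X →L[ℝ] ℝ) (e i)|)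
          (fun j _ => abs_nonneg _) (Finset.mem_univ (⟨g, hg⟩ : I))
      rw [hVt, map_smul, smul_eq_mul, abs_mul, abs_of_nonneg (by norm_num : (0:ℝ) ≤ 1/2)] at h4
      linarith
    have hlimit : Tendsto (fun K => |g (P K - P N)|) atTop (𝓝 |g (y - P N)|) := by
      have h1 : Tendsto P atTop (𝓝 y) := (hf y).tendsto_sum_nat
      exact ((g.continuous.tendsto _).comp (h1.sub_const (P N))).abs
    have h1 : |g (y - P N)| ≤ 2 * η := by
      refine le_of_tendsto hlimit ?_
      filter_upwards [eventually_ge_atTop N] with K hK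
      exact htail K hK
    have h2 : |g (P N - V e u)| ≤ C * κ := by
      refine (g.le_opNorm _).trans ?_
      rw [norm_sub_rev] at hPu
      exact mul_le_mul (hgC g hg) hPu (norm_nonneg _) hC0
    have h3 : |g (V e z)| ≤ η := hz2 ⟨g, hg⟩
    have h4 : |g (V e u0 - x)| ≤ C * (ε / (8 * (C + 1))) := by
      refine (g.le_opNorm _).trans ?_
      exact mul_le_mul (hgC g hg) hu02.le (norm_nonneg _) hC0
    have h5 : C * (ε / (8 * (C + 1))) ≤ ε / 8 := by
      rw [mul_div_assoc', div_le_div_iff₀ (by positivity) (by positivity)]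
      nlinarith
    have h6 : C * κ ≤ ε / 8 := (mul_le_mul_of_nonneg_left (min_le_right _ _) hC0).trans h5
    have h7 : g y - g x = g (y - P N) + g (P N - V e u) + g (V e z) + g (V e u0 - x) := by
      rw [hu', map_add, map_sub, map_sub, map_sub, map_add]; ring
    rw [h7]
    have h8 := abs_add_le (g (y - P N) + g (P N - V e u) + g (V e z)) (g (V e u0 - x))
    have h9 := abs_add_le (g (y - P N) + g (P N - V e u)) (g (V e z))
    have h10 := abs_add_le (g (y - P N)) (g (P N - V e u))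
    have : 2 * η = ε / 4 := by rw [hη]; ring
    linarith

end Pool.Agent.H130R3.PiBase
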