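import Mathlib

set_option autoImplicit false

open Filter Topology

namespace Pool.Agent.H130R3.SCD

/-- sign of a turn -/
def sg (b : Bool) : ℝ := if b then 1 else -1

theorem sg_abs (b : Bool) : |sg b| = 1 := by cases b <;> simp [sg]

theorem sg_mul_self (b : Bool) : sg b * sg b = 1 := by cases b <;> simp [sg]

theorem sg_ne {b b' : Bool} (h : b' ≠ b) : sg b' * sg b = -1 := by
  cases b <;> cases b' <;> simp_all [sg]

/-- sum of the absolute values over the strict ancestors (tails) of a node -/
noncomputable def Bs (c : List Bool → ℝ) : List Bool → ℝ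
  | [] => 0
  | (_ :: J) => Bs c J + |c J|

/-- signed sum over the strict ancestors -/
noncomputable def val (c : List Bool → ℝ) : List Bool → ℝ
  | [] => 0
  | (b :: J) => val c J + sg b * c J

theorem Bs_nonneg (c : List Bool → ℝ) (J : List Bool) : 0 ≤ Bs c J := by
  induction J with
  | nil => exact le_rfl
  | cons b J ih => exact add_nonneg ih (abs_nonneg _)

theorem abs_val_le (c : List Bool → ℝ) (J : List Bool) : |val c J| ≤ Bs c J := by
  induction J with
  | nil => simp [val, Bs]
  | cons b J ih =>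
    refine (abs_add_le _ _).trans ?_
    rw [abs_mul, sg_abs, one_mul]
    exact add_le_add ih le_rfl

theorem congr_lt (c c' : List Bool → ℝ) (L : ℕ) (h : ∀ K : List Bool, K.length < L → c' K = c K)
    (J : List Bool) (hJ : J.length ≤ L) : Bs c' J = Bs c J ∧ val c' J = val c J := by
  induction J with
  | nil => exact ⟨rfl, rfl⟩
  | cons b J ih =>
    have h1 : J.length < L := by simpa using hJ
    obtain ⟨h2, h3⟩ := ih h1.le
    refine ⟨?_, ?_⟩
    · show Bs c' J + |c' J| = Bs c J + |c J|
      rw [h2, h J h1]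
    · show val c' J + sg b * c' J = val c J + sg b * c J
      rw [h3, h J h1]

/-- one elementary modification at the node `J` -/
noncomputable def modif (c : List Bool → ℝ) (J : List Bool) (p : ℝ) : List Bool → ℝ :=
  fun K => if K = J then p else c K

theorem modif_cases (c : List Bool → ℝ) (J : List Bool) (p : ℝ)
    (hc : ∀ K : List Bool, J.length ≤ K.length → c K = 0) (K : List Bool) :
    (Bs (modif c J p) K = Bs c K ∧ val (modif c J p) K = val c K) ∨
    (J.length < K.length ∧ Bs (modif c J p) K = Bs c J + |p| ∧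
      val (modif c J p) K ≤ val c J + |p|) := by
  induction K with
  | nil => exact Or.inl ⟨rfl, rfl⟩
  | cons b K ih =>
    by_cases h : K = J
    · subst h
      right
      have h1 := congr_lt c (modif c K p) K.length (fun K' hK' => by
        unfold modif
        rw [if_neg]
        rintro rfl
        exact lt_irrefl _ hK') K le_rfl
      have h2 : modif c K p K = p := by simp [modif]
      refine ⟨by simp, ?_, ?_⟩
      · show Bs (modif c K p) K + |modif c K p K| = _
        rw [h1.1, h2]
      · show val (modif c K p) K + sg b * modif c K p K ≤ _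
        rw [h1.2, h2]
        have h3 : sg b * p ≤ |sg b * p| := le_abs_self _
        rw [abs_mul, sg_abs, one_mul] at h3
        linarith
    · have h2 : modif c J p K = c K := by simp [modif, h]
      rcases ih with ih | ih
      · left
        refine ⟨?_, ?_⟩
        · show Bs (modif c J p) K + |modif c J p K| = Bs c K + |c K|
          rw [ih.1, h2]
        · show val (modif c J p) K + sg b * modif c J p K = val c K + sg b * c K
          rw [ih.2, h2]
      · right
        have h3 : c K = 0 := hc K ih.1.le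
        refine ⟨?_, ?_, ?_⟩
        · rw [List.length_cons]; exact ih.1.trans (Nat.lt_succ_self _)
        · show Bs (modif c J p) K + |modif c J p K| = _
          rw [ih.2.1, h2, h3, abs_zero, add_zero]
        · show val (modif c J p) K + sg b * modif c J p K ≤ _
          rw [h2, h3, mul_zero, add_zero]
          exact ih.2.2

/-- walking `m` steps -/
theorem walk (D : Set (List Bool)) (hD : ∀ J ∈ D, ∃ b : Bool, b :: J ∈ D) (δ0 δ s : ℝ)
    (hs : 0 ≤ s) (hδ : δ0 + 2 * s ≤ δ) (m : ℕ) :
    ∀ (c : List Bool → ℝ) (J : List Bool), J ∈ D →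
      (∀ K : List Bool, J.length ≤ K.length → c K = 0) → (∀ K, Bs c K ≤ 1) →
      (∀ K, val c K + Bs c K ≤ δ) → val c J + Bs c J ≤ δ0 → Bs c J + m * s ≤ 1 →
      ∃ (c' : List Bool → ℝ) (J' : List Bool), J' ∈ D ∧ J'.length = J.length + m ∧
        (∀ K : List Bool, K.length < J.length → c' K = c K) ∧
        (∀ K : List Bool, J'.length ≤ K.length → c' K = 0) ∧ (∀ K, Bs c' K ≤ 1) ∧
        (∀ K, val c' K + Bs c' K ≤ δ) ∧ val c' J' + Bs c' J' ≤ δ0 ∧
        Bs c' J' = Bs c J + m * s := by
  induction m with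
  | zero =>
    intro c J hJ h1 h2 h3 h4 h5
    exact ⟨c, J, hJ, by simp, fun _ _ => rfl, h1, h2, h3, h4, by simp⟩
  | succ m ih =>
    intro c J hJ h1 h2 h3 h4 h5
    obtain ⟨b, hb⟩ := hD J hJ
    set p : ℝ := - sg b * s with hp
    have hpa : |p| = s := by
      rw [hp, abs_mul, abs_neg, sg_abs, one_mul, abs_of_nonneg hs]
    set c1 := modif c J p with hc1
    have hcases := modif_cases c J p h1
    have hJe := congr_lt c c1 J.length (fun K' hK' => by
        rw [hc1]; unfold modif
        rw [if_neg]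
        rintro rfl
        exact lt_irrefl _ hK') J le_rfl
    have hc1J : c1 J = p := by simp [hc1, modif]
    have hB1 : Bs c1 (b :: J) = Bs c J + s := by
      show Bs c1 J + |c1 J| = _
      rw [hJe.1, hc1J, hpa]
    have hV1 : val c1 (b :: J) = val c J - s := by
      show val c1 J + sg b * c1 J = _
      rw [hJe.2, hc1J, hp]
      have := sg_mul_self b
      linear_combination (-s) * this
    have h5' : Bs c J + s + m * s ≤ 1 := by
      push_cast at h5; linarith
    have hms : 0 ≤ (m : ℝ) * s := by positivity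
    obtain ⟨c', J', g1, g2, g3, g4, g5, g6, g7, g8⟩ := ih c1 (b :: J) hb
      (by
        intro K hK
        rw [List.length_cons] at hK
        have : K ≠ J := by rintro rfl; omega
        rw [hc1]; unfold modif
        rw [if_neg this]
        exact h1 K (by omega))
      (by
        intro K
        rcases hcases K with h | h
        · rw [h.1]; exact h2 K
        · rw [h.2.1, hpa]; linarith)
      (by
        intro K
        rcases hcases K with h | h
        · rw [h.1, h.2]; exact h3 K
        · rw [h.2.1, hpa]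
          have := h.2.2
          rw [hpa] at this
          linarith)
      (by rw [hB1, hV1]; linarith)
      (by rw [hB1]; exact h5')
    refine ⟨c', J', g1, ?_, ?_, g4, g5, g6, g7, ?_⟩
    · rw [g2, List.length_cons]; ring
    · intro K hK
      rw [g3 K (by rw [List.length_cons]; omega), hc1]
      unfold modif
      rw [if_neg]
      rintro rfl
      exact lt_irrefl _ hK
    · rw [g8, hB1]; push_cast; ring

/-- the invariant -/
def Inv (δ : ℝ) (c : List Bool → ℝ) (L : ℕ) : Prop :=
  (∀ K : List Bool, L ≤ K.length → c K = 0) ∧ (∀ K, Bs c K ≤ 1) ∧ (∀ K, val c K + Bs c K ≤ δ)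

theorem deep (D : Set (List Bool)) (hD : ∀ J ∈ D, ∃ b : Bool, b :: J ∈ D) (hne : D.Nonempty)
    (L : ℕ) : ∃ J ∈ D, L ≤ J.length := by
  induction L with
  | zero => obtain ⟨J, hJ⟩ := hne; exact ⟨J, hJ, Nat.zero_le _⟩
  | succ L ih =>
    obtain ⟨J, hJ, h⟩ := ih
    obtain ⟨b, hb⟩ := hD J hJ
    exact ⟨b :: J, hb, by rw [List.length_cons]; omega⟩

theorem step (D : Set (List Bool)) (hD : ∀ J ∈ D, ∃ b : Bool, b :: J ∈ D) (hne : D.Nonempty)
    (δ δ' : ℝ) (hδ : δ < δ') (c : List Bool → ℝ) (L : ℕ) (hI : Inv δ c L) :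
    ∃ (c' : List Bool → ℝ) (L' : ℕ) (J : List Bool), Inv δ' c' L' ∧ L < L' ∧
      (∀ K : List Bool, K.length < L → c' K = c K) ∧ J ∈ D ∧ J.length ≤ L' ∧
      1 + val c' J ≤ δ := by
  obtain ⟨J, hJ, hJL⟩ := deep D hD hne L
  obtain ⟨n, hn⟩ := exists_nat_one_div_lt (show (0:ℝ) < (δ' - δ) / 2 by linarith)
  set r : ℝ := 1 - Bs c J with hr
  have hr0 : 0 ≤ r := by have := hI.2.1 J; linarith
  have hr1 : r ≤ 1 := by have := Bs_nonneg c J; linarith
  have hn1 : (0:ℝ) < (n:ℝ) + 1 := by positivity
  obtain ⟨c', J', g1, g2, g3, g4, g5, g6, g7, g8⟩ := walk D hD δ δ' (r / ((n:ℝ) + 1))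
    (by positivity) (by
      have : r / ((n:ℝ) + 1) ≤ 1 / ((n:ℝ) + 1) := by gcongr
      linarith) (n + 1) c J hJ (fun K hK => hI.1 K (hJL.trans hK)) hI.2.1
      (fun K => (hI.2.2 K).trans hδ.le) (hI.2.2 J) (by
        push_cast
        rw [mul_div_cancel₀ _ hn1.ne']
        linarith)
  refine ⟨c', J'.length, J', ⟨g4, g5, g6⟩, by omega, fun K hK => g3 K (lt_of_lt_of_le hK hJL), g1,
    le_rfl, ?_⟩
  push_cast at g8
  rw [mul_div_cancel₀ _ hn1.ne'] at g8
  linarith

theorem exists_limit (D : ℕ → Set (List Bool)) (hD : ∀ n, ∀ J ∈ D n, ∃ b : Bool, b :: J ∈ D n)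
    (hne : ∀ n, (D n).Nonempty) :
    ∃ (c : List Bool → ℝ) (J : ℕ → List Bool), (∀ K, Bs c K ≤ 1) ∧ (∀ n, J n ∈ D n) ∧
      ∀ n, 1 + val c (J n) ≤ 1 / 2 := by
  set δ : ℕ → ℝ := fun n => 1 / 2 - 1 / 2 ^ (n + 1) with hδ
  have hδlt : ∀ n, δ n < δ (n + 1) := by
    intro n
    simp only [hδ]
    have : (1:ℝ) / 2 ^ (n + 1 + 1) < 1 / 2 ^ (n + 1) := by
      apply one_div_lt_one_div_of_lt (by positivity)
      exact pow_lt_pow_right₀ (by norm_num) (Nat.lt_succ_self _)
    linarith
  have hstep : ∀ n (p : {p : (List Bool → ℝ) × ℕ // Inv (δ n) p.1 p.2}),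
      ∃ (q : {p : (List Bool → ℝ) × ℕ // Inv (δ (n + 1)) p.1 p.2}) (J : List Bool),
        p.1.2 < q.1.2 ∧ (∀ K : List Bool, K.length < p.1.2 → q.1.1 K = p.1.1 K) ∧ J ∈ D n ∧
        J.length ≤ q.1.2 ∧ 1 + val q.1.1 J ≤ δ n := by
    intro n p
    obtain ⟨c', L', J, h1, h2, h3, h4, h5, h6⟩ :=
      step (D n) (hD n) (hne n) (δ n) (δ (n + 1)) (hδlt n) p.1.1 p.1.2 p.2
    exact ⟨⟨(c', L'), h1⟩, J, h2, h3, h4, h5, h6⟩
  choose nxt Jn h1 h2 h3 h4 h5 using hstep
  have h0 : Inv (δ 0) (fun _ => 0) 0 := by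
    have hz : ∀ K, Bs (fun _ => 0) K = 0 ∧ val (fun _ => 0) K = 0 := by
      intro K
      induction K with
      | nil => exact ⟨rfl, rfl⟩
      | cons b K ih =>
        refine ⟨?_, ?_⟩
        · show Bs _ K + |(0:ℝ)| = 0
          rw [ih.1]; simp
        · show val _ K + sg b * (0:ℝ) = 0
          rw [ih.2]; simp
    refine ⟨fun _ _ => rfl, fun K => by rw [(hz K).1]; norm_num, fun K => ?_⟩
    rw [(hz K).1, (hz K).2]; norm_num [hδ]
  let st : (n : ℕ) → {p : (List Bool → ℝ) × ℕ // Inv (δ n) p.1 p.2} := fun n =>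
    Nat.rec (motive := fun n => {p : (List Bool → ℝ) × ℕ // Inv (δ n) p.1 p.2})
      ⟨((fun _ => 0), 0), h0⟩ (fun n p => nxt n p) n
  have hst : ∀ n, st (n + 1) = nxt n (st n) := fun n => rfl
  set C : ℕ → List Bool → ℝ := fun n => (st n).1.1 with hC
  set L : ℕ → ℕ := fun n => (st n).1.2 with hL
  have hLlt : ∀ n, L n < L (n + 1) := fun n => by
    have := h1 n (st n)
    rwa [← hst] at this
  have hLmono : StrictMono L := strictMono_nat_of_lt_succ hLlt
  have hCs : ∀ n (K : List Bool), K.length < L n → C (n + 1) K = C n K := fun n K hK => by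
    have := h2 n (st n) K hK
    rwa [← hst] at this
  have hCmono : ∀ n m, n ≤ m → ∀ K : List Bool, K.length < L n → C m K = C n K := by
    intro n m hnm
    induction hnm with
    | refl => intro K _; rfl
    | @step m hm ih =>
      intro K hK
      have h6 : K.length < L m := lt_of_lt_of_le hK (hLmono.monotone hm)
      exact (hCs m K h6).trans (ih K hK)
  set c : List Bool → ℝ := fun K => C (K.length + 1) K with hc
  have hcC : ∀ n (K : List Bool), K.length < L n → c K = C n K := by
    intro n K hK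
    rcases le_total n (K.length + 1) with h | h
    · exact hCmono n _ h K hK
    · have h6 : K.length < L (K.length + 1) := lt_of_lt_of_le (Nat.lt_succ_self _) hLmono.le_apply
      exact (hCmono _ n h K h6).symm
  have hlim : ∀ n (K : List Bool), K.length ≤ L n → Bs c K = Bs (C n) K ∧ val c K = val (C n) K :=
    fun n K hK => congr_lt (C n) c (L n) (fun K' hK' => hcC n K' hK') K hK
  refine ⟨c, fun n => Jn n (st n), ?_, fun n => h3 n (st n), ?_⟩
  · intro K
    rw [(hlim K.length K hLmono.le_apply).1]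
    exact (st K.length).2.2.1 K
  · intro n
    have h6 := h4 n (st n)
    have h7 := h5 n (st n)
    rw [← hst] at h6 h7
    rw [(hlim (n + 1) (Jn n (st n)) h6).2]
    refine h7.trans ?_
    simp only [hδ]
    have : (0:ℝ) < 1 / 2 ^ (n + 1) := by positivity
    linarith

end Pool.Agent.H130R3.SCD
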