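import Mathlib

set_option autoImplicit false

open Filter Topology

namespace Pool.Agent.H130R3.SCD

set_option maxHeartbeats 4000000 in
theorem dp_fin_aux {Y : Type*} [NormedAddCommGroup Y] [NormedSpace ℝ Y]
    (hDP : ∀ (f : Y →L[ℝ] ℝ) (v : Y),
      ‖ContinuousLinearMap.id ℝ Y + f.smulRight v‖ = 1 + ‖f.smulRight v‖)
    {F : Type*} [NormedAddCommGroup F] [NormedSpace ℝ F] [FiniteDimensional ℝ F]
    (R : Y →L[ℝ] F) (j : F →L[ℝ] Y) (ε : ℝ) (hε : 0 < ε) (hεT : 2 * ε < ‖j.comp R‖) :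
    1 + ‖j.comp R‖ - 5 * ε ≤ ‖ContinuousLinearMap.id ℝ Y + j.comp R‖ := by
  set T := j.comp R with hT
  have hTpos : 0 < ‖T‖ := by linarith
  obtain ⟨y0, hy0, hTy0⟩ := ContinuousLinearMap.exists_lt_apply_of_lt_opNorm T
    (show ‖T‖ - ε < ‖T‖ by linarith)
  set K : Set F := closure (R '' Metric.closedBall 0 1) with hK
  have hKR : ∀ y : Y, ‖y‖ ≤ 1 → R y ∈ K := fun y hy =>
    subset_closure ⟨y, by rwa [mem_closedBall_zero_iff], rfl⟩
  have : ProperSpace F := FiniteDimensional.proper ℝ F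
  have hKc : IsCompact K := by
    have h1 : Bornology.IsBounded (R '' Metric.closedBall (0 : Y) 1) :=
      R.lipschitz.isBounded_image Metric.isBounded_closedBall
    exact h1.isCompact_closure
  obtain ⟨l, hl1, hl2⟩ := exists_dual_vector'' ℝ (T y0)
  have hl2' : l (T y0) = ‖T y0‖ := by simpa using hl2
  set E := toEuclidean (E := F) with hE
  have hq : Continuous fun k : F => ‖E k‖ ^ 2 := (E.continuous.norm).pow 2
  obtain ⟨M, hM⟩ := hKc.exists_bound_of_continuousOn (f := fun k : F => ‖E k‖ ^ 2) hq.continuousOn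
  have hM' : ∀ k ∈ K, ‖E k‖ ^ 2 ≤ |M| + 1 := fun k hk => by
    have := hM k hk
    rw [Real.norm_of_nonneg (by positivity)] at this
    exact this.trans ((le_abs_self M).trans (by linarith))
  set τ : ℝ := ε / (|M| + 1) with hτ
  have hMp : 0 < |M| + 1 := by positivity
  have hτ0 : 0 < τ := by positivity
  have hτM : τ * (|M| + 1) = ε := by rw [hτ]; field_simp
  set Ψ : F → ℝ := fun k => l (j k) + τ * ‖E k‖ ^ 2 with hΨ
  have hΨc : Continuous Ψ := (l.continuous.comp j.continuous).add (continuous_const.mul hq)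
  have hy0K : R y0 ∈ K := hKR y0 hy0.le
  obtain ⟨u, huK, humax⟩ := hKc.exists_isMaxOn ⟨_, hy0K⟩ hΨc.continuousOn
  have humax' : ∀ k ∈ K, Ψ k ≤ Ψ u := fun k hk => humax hk
  have hlu : ‖T‖ - 2 * ε < l (j u) := by
    have h1 := humax' _ hy0K
    simp only [hΨ] at h1
    have h2 : l (j (R y0)) = ‖T y0‖ := hl2'
    have h3 := hM' u huK
    have h4 : 0 ≤ τ * ‖E (R y0)‖ ^ 2 := by positivity
    have h5 : τ * ‖E u‖ ^ 2 ≤ ε := by rw [← hτM]; exact mul_le_mul_of_nonneg_left h3 hτ0.le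
    linarith
  have hlu0 : 0 < l (j u) := by linarith
  set b := ‖j u‖ with hb
  have hbl : l (j u) ≤ b := by
    have h1 := l.le_opNorm (j u)
    have h2 : ‖l‖ * ‖j u‖ ≤ 1 * ‖j u‖ := mul_le_mul_of_nonneg_right hl1 (norm_nonneg _)
    have h3 := le_abs_self (l (j u))
    rw [Real.norm_eq_abs] at h1
    linarith
  have hb0 : 0 < b := by linarith
  -- the exposing functional
  set φ : F →L[ℝ] ℝ := l.comp j + (2 * τ) • (innerSL ℝ (E u)).comp (E : F →L[ℝ] EuclideanSpace ℝ (Fin (Module.finrank ℝ F)))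
    with hφ
  have hφv : ∀ k, φ k = l (j k) + 2 * τ * inner ℝ (E u) (E k) := by
    intro k
    simp [hφ]
  have hφdiff : ∀ k ∈ K, τ * ‖E (u - k)‖ ^ 2 ≤ φ u - φ k := by
    intro k hk
    have h1 := humax' k hk
    simp only [hΨ] at h1
    rw [hφv, hφv, map_sub, @norm_sub_sq_real, real_inner_self_eq_norm_sq]
    linarith
  set m := φ u with hm
  have hm0 : 0 < m := by
    rw [hm, hφv, real_inner_self_eq_norm_sq]
    positivity
  set f : Y →L[ℝ] ℝ := φ.comp R with hf
  have hfle : ∀ y, ‖y‖ ≤ 1 → f y ≤ m := by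
    intro y hy
    have h1 := hφdiff (R y) (hKR y hy)
    have h2 : 0 ≤ τ * ‖E (u - R y)‖ ^ 2 := by positivity
    show φ (R y) ≤ m
    linarith
  have hfn : ‖f‖ ≤ m := by
    refine ContinuousLinearMap.opNorm_le_of_unit_norm hm0.le ?_
    intro x hx
    rw [Real.norm_eq_abs, abs_le]
    have h1 := hfle x hx.le
    have h2 := hfle (-x) (by rw [norm_neg]; exact hx.le)
    rw [map_neg] at h2
    constructor <;> linarith
  have hfn2 : m ≤ ‖f‖ := by
    have h1 : K ⊆ {k | φ k ≤ ‖f‖} := by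
      apply closure_minimal _ (isClosed_le φ.continuous continuous_const)
      rintro _ ⟨y, hy, rfl⟩
      rw [mem_closedBall_zero_iff] at hy
      have h2 := f.le_opNorm y
      rw [Real.norm_eq_abs] at h2
      have h3 := le_abs_self (f y)
      show f y ≤ ‖f‖
      nlinarith [norm_nonneg f]
    exact h1 huK
  have hfm : ‖f‖ = m := le_antisymm hfn hfn2
  set w : Y := (1 / m) • j u with hw
  have hwn : ‖w‖ = b / m := by
    rw [hw, norm_smul, Real.norm_of_nonneg (by positivity)]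
    ring
  have hrank : ‖f.smulRight w‖ = b := by
    rw [ContinuousLinearMap.norm_smulRight_apply, hfm, hwn]
    field_simp
  have hD := hDP f w
  rw [hrank] at hD
  set C := ‖j.comp (E.symm : EuclideanSpace ℝ (Fin (Module.finrank ℝ F)) →L[ℝ] F)‖ with hC
  set η : ℝ := min ε (ε ^ 2 * (τ * b) / ((C ^ 2 + 1) * m)) with hη
  have hη0 : 0 < η := lt_min hε (by positivity)
  obtain ⟨y1, hy1, hy1'⟩ := ContinuousLinearMap.exists_lt_apply_of_lt_opNorm
    (ContinuousLinearMap.id ℝ Y + f.smulRight w) (show 1 + b - η < _ by rw [hD]; linarith)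
  obtain ⟨y, hy, hyf, hy'⟩ : ∃ y : Y, ‖y‖ ≤ 1 ∧ 0 ≤ f y ∧ 1 + b - η < ‖y + f y • w‖ := by
    rcases le_total 0 (f y1) with h | h
    · exact ⟨y1, hy1.le, h, by simpa using hy1'⟩
    · refine ⟨-y1, by rw [norm_neg]; exact hy1.le, by rw [map_neg]; linarith, ?_⟩
      have h1 : -y1 + f (-y1) • w = -(y1 + f y1 • w) := by rw [map_neg]; module
      rw [h1, norm_neg]
      simpa using hy1'
  have hbm : 0 < b / m := by positivity
  have h1 : (m - f y) * (b / m) < η := by
    have h2 := norm_add_le y (f y • w)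
    rw [norm_smul, Real.norm_of_nonneg hyf, hwn] at h2
    have h3 : m * (b / m) = b := by field_simp
    nlinarith
  have h2 : m - f y ≤ η * (m / b) := by
    have h3 : (m - f y) * (b / m) * (m / b) ≤ η * (m / b) :=
      mul_le_mul_of_nonneg_right h1.le (by positivity)
    have h4 : (m - f y) * (b / m) * (m / b) = m - f y := by field_simp
    linarith
  have h3 := hφdiff (R y) (hKR y hy)
  have h4 : τ * ‖E (u - R y)‖ ^ 2 ≤ η * (m / b) := h3.trans h2
  have h5 : ‖j u - T y‖ ≤ C * ‖E (u - R y)‖ := by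
    have h6 : j u - T y = (j.comp (E.symm : EuclideanSpace ℝ (Fin (Module.finrank ℝ F)) →L[ℝ] F))
        (E (u - R y)) := by
      simp [hT]
    rw [h6]
    exact ContinuousLinearMap.le_opNorm _ _
  have h6 : ‖j u - T y‖ ≤ ε := by
    have h7 : η * (m / b) ≤ ε ^ 2 * τ / (C ^ 2 + 1) := by
      have h8 : η ≤ ε ^ 2 * (τ * b) / ((C ^ 2 + 1) * m) := min_le_right _ _
      have h9 : ε ^ 2 * (τ * b) / ((C ^ 2 + 1) * m) * (m / b) = ε ^ 2 * τ / (C ^ 2 + 1) := by
        field_simp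
      rw [← h9]
      exact mul_le_mul_of_nonneg_right h8 (by positivity)
    have h8 : τ * ‖E (u - R y)‖ ^ 2 ≤ ε ^ 2 * τ / (C ^ 2 + 1) := h4.trans h7
    have h9 : ‖E (u - R y)‖ ^ 2 * (C ^ 2 + 1) ≤ ε ^ 2 := by
      rw [le_div_iff₀ (by positivity)] at h8
      have h10 : τ * (‖E (u - R y)‖ ^ 2 * (C ^ 2 + 1)) ≤ τ * ε ^ 2 := by linarith
      exact le_of_mul_le_mul_left h10 hτ0
    have h10 : (C * ‖E (u - R y)‖) ^ 2 ≤ ε ^ 2 := by nlinarith [sq_nonneg ‖E (u - R y)‖]
    exact h5.trans (abs_le_of_sq_le_sq' h10 hε.le).2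
  have h7 : ‖y + f y • w‖ ≤ ‖y + T y‖ + ε + η := by
    have h8 : y + f y • w = (y + T y) + (j u - T y) + (-(m - f y)) • w := by
      have : j u = m • w := by rw [hw, smul_smul]; field_simp; simp
      rw [this]; module
    rw [h8]
    refine (norm_add_le _ _).trans ?_
    refine add_le_add ((norm_add_le _ _).trans (add_le_add le_rfl h6)) ?_
    rw [norm_smul, norm_neg, Real.norm_of_nonneg (by linarith [hfle y hy]), hwn]
    exact h1.le
  have h8 : ‖y + T y‖ ≤ ‖ContinuousLinearMap.id ℝ Y + T‖ := by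
    have h9 := (ContinuousLinearMap.id ℝ Y + T).le_opNorm y
    have h10 : (ContinuousLinearMap.id ℝ Y + T) y = y + T y := rfl
    rw [h10] at h9
    nlinarith [norm_nonneg (ContinuousLinearMap.id ℝ Y + T)]
  have h9 : η ≤ ε := min_le_left _ _
  linarith

theorem dp_fin {Y : Type*} [NormedAddCommGroup Y] [NormedSpace ℝ Y]
    (hDP : ∀ (f : Y →L[ℝ] ℝ) (v : Y),
      ‖ContinuousLinearMap.id ℝ Y + f.smulRight v‖ = 1 + ‖f.smulRight v‖)
    {F : Type*} [NormedAddCommGroup F] [NormedSpace ℝ F] [FiniteDimensional ℝ F]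
    (R : Y →L[ℝ] F) (j : F →L[ℝ] Y) :
    1 + ‖j.comp R‖ ≤ ‖ContinuousLinearMap.id ℝ Y + j.comp R‖ := by
  rcases (norm_nonneg (j.comp R)).eq_or_lt with h | h
  · have h1 : j.comp R = 0 := norm_eq_zero.1 h.symm
    have h2 := hDP 0 0
    rw [h1]
    simp at h2 ⊢
    linarith
  · refine le_of_forall_pos_le_add fun ε hε => ?_
    have h1 := dp_fin_aux hDP R j (min (ε / 5) (‖j.comp R‖ / 4)) (lt_min (by positivity)
      (by positivity)) (by have := min_le_right (ε / 5) (‖j.comp R‖ / 4); linarith)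
    have h2 := min_le_left (ε / 5) (‖j.comp R‖ / 4)
    linarith

end Pool.Agent.H130R3.SCD
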