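import Pool.Agent.H130R3.SCD1

set_option autoImplicit false

open Filter Topology

namespace Pool.Agent.H130R3.SCD

/-- index set of the coordinates: `none` and the nodes of the dyadic tree -/
abbrev Idx := Option (List Bool)

/-- the set of coefficient families -/
def CCset : Set (Idx → ℝ) :=
  {c | |c none| ≤ 1 ∧ ∀ J, Bs (fun K => c (some K)) J ≤ 1}

abbrev CC := {c : Idx → ℝ // c ∈ CCset}

theorem CC_abs_le (c : CC) (o : Idx) : |c.1 o| ≤ 1 := by
  rcases o with _ | K
  · exact c.2.1
  · have h1 := c.2.2 (true :: K)
    have h2 : Bs (fun K => c.1 (some K)) (true :: K) = Bs (fun K => c.1 (some K)) K + |c.1 (some K)| :=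
      rfl
    have h3 := Bs_nonneg (fun K => c.1 (some K)) K
    linarith

/-- the ambient space -/
abbrev E := BoundedContinuousFunction CC ℝ

/-- coordinate evaluation -/
noncomputable def ev (o : Idx) : E :=
  BoundedContinuousFunction.ofNormedAddCommGroup (fun c : CC => c.1 o)
    ((continuous_apply o).comp continuous_subtype_val) 1
    (fun c => by rw [Real.norm_eq_abs]; exact CC_abs_le c o)

theorem ev_apply (o : Idx) (c : CC) : ev o c = c.1 o := rfl

/-- the space -/
noncomputable def XS : Submodule ℝ E := (Submodule.span ℝ (Set.range ev)).topologicalClosure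

theorem ev_mem (o : Idx) : ev o ∈ XS :=
  Submodule.le_topologicalClosure _ (Submodule.subset_span ⟨o, rfl⟩)

def X : Type := ↥XS

noncomputable instance : NormedAddCommGroup X := inferInstanceAs (NormedAddCommGroup ↥XS)
noncomputable instance : NormedSpace ℝ X := inferInstanceAs (NormedSpace ℝ ↥XS)

instance : CompleteSpace X :=
  inferInstanceAs (CompleteSpace (Submodule.span ℝ (Set.range ev)).topologicalClosure)

instance : TopologicalSpace.SeparableSpace X := by
  have h1 : TopologicalSpace.IsSeparable (XS : Set E) := by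
    have h2 : (XS : Set E) = closure (Submodule.span ℝ (Set.range ev) : Set E) :=
      Submodule.topologicalClosure_coe _
    rw [h2]
    apply TopologicalSpace.IsSeparable.closure
    apply TopologicalSpace.IsSeparable.span
    exact (Set.countable_range ev).isSeparable
  exact h1.separableSpace

/-- inclusion into the ambient space -/
noncomputable def incl : X →ₗᵢ[ℝ] E := XS.subtypeₗᵢ

theorem incl_mem (x : X) : incl x ∈ XS := x.2

/-- evaluation at a point of `CC` -/
noncomputable def pt (c : CC) : X →L[ℝ] ℝ :=
  (BoundedContinuousFunction.evalCLM ℝ c).comp incl.toContinuousLinearMap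

theorem pt_apply (c : CC) (x : X) : pt c x = incl x c := rfl

noncomputable def eX (o : Idx) : X := (⟨ev o, ev_mem o⟩ : ↥XS)

theorem incl_eX (o : Idx) : incl (eX o) = ev o := rfl

/-- the martingale tree -/
noncomputable def xt : List Bool → X
  | [] => eX none
  | (b :: J) => xt J + sg b • eX (some J)

theorem xt_apply (c : CC) (J : List Bool) :
    incl (xt J) c = c.1 none + val (fun K => c.1 (some K)) J := by
  induction J with
  | nil => show ev none c = _; rw [ev_apply]; simp [val]
  | cons b J ih =>
    show incl (xt J + sg b • eX (some J)) c = _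
    rw [map_add, map_smul, incl_eX, BoundedContinuousFunction.add_apply,
      BoundedContinuousFunction.smul_apply, smul_eq_mul, ih, ev_apply]
    show _ = c.1 none + (val (fun K => c.1 (some K)) J + sg b * c.1 (some J))
    ring

theorem xt_avg (J : List Bool) : xt J = (1/2 : ℝ) • xt (true :: J) + (1/2 : ℝ) • xt (false :: J) := by
  show xt J = (1/2 : ℝ) • (xt J + sg true • eX (some J)) + (1/2 : ℝ) • (xt J + sg false • eX (some J))
  simp only [sg, if_true, Bool.false_eq_true, if_false]
  module

theorem xt_norm (J : List Bool) : ‖xt J‖ ≤ 2 := by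
  rw [← incl.norm_map, BoundedContinuousFunction.norm_le (by norm_num)]
  intro c
  rw [xt_apply, Real.norm_eq_abs]
  have h1 := abs_val_le (fun K => c.1 (some K)) J
  have h2 := c.2.2 J
  have h3 := c.2.1
  have h4 := abs_add_le (c.1 none) (val (fun K => c.1 (some K)) J)
  linarith

/-- the set which is not slicely countably determined -/
noncomputable def AA : Set X := convexHull ℝ (Set.range xt)

theorem AA_not_scd :
    ¬ ∃ (f : ℕ → (X →L[ℝ] ℝ)) (c : ℕ → ℝ),
        (∀ n, ∃ x ∈ AA, c n < f n x) ∧
        ∀ y : ℕ → X, (∀ n, y n ∈ AA ∧ c n < f n (y n)) →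
          AA ⊆ closure (convexHull ℝ (Set.range y)) := by
  rintro ⟨f, t, h1, h2⟩
  obtain ⟨c, J, hc1, hJ, hc2⟩ := exists_limit (fun n => {J | t n < f n (xt J)})
    (by
      intro n J hJ
      by_contra hcon
      push Not at hcon
      have h3 : f n (xt (true :: J)) ≤ t n := not_lt.1 (hcon true)
      have h4 : f n (xt (false :: J)) ≤ t n := not_lt.1 (hcon false)
      have h5 : t n < f n (xt J) := hJ
      rw [xt_avg, map_add, map_smul, map_smul, smul_eq_mul, smul_eq_mul] at h5
      linarith)
    (by
      intro n
      by_contra hcon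
      obtain ⟨x, hx, hx2⟩ := h1 n
      have h3 : AA ⊆ {x | f n x ≤ t n} := by
        apply convexHull_min
        · rintro _ ⟨J, rfl⟩
          by_contra h
          have h4 : t n < f n (xt J) := by
            rw [Set.mem_setOf_eq, not_le] at h
            exact h
          exact hcon ⟨J, h4⟩
        · exact convex_halfSpace_le (f n).toLinearMap.isLinear _
      exact absurd (h3 hx) (not_le.2 hx2))
  let C : CC := ⟨fun o => match o with
    | none => 1
    | some K => c K, by
      refine ⟨?_, fun J => hc1 J⟩
      show |(1:ℝ)| ≤ 1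
      simp⟩
  have h3 := h2 (fun n => xt (J n)) (fun n => ⟨subset_convexHull ℝ _ ⟨J n, rfl⟩, hJ n⟩)
  have h4 : closure (convexHull ℝ (Set.range fun n => xt (J n))) ⊆ {x | pt C x ≤ 1 / 2} := by
    apply closure_minimal _ (isClosed_le (pt C).continuous continuous_const)
    apply convexHull_min
    · rintro _ ⟨n, rfl⟩
      show pt C (xt (J n)) ≤ 1 / 2
      rw [pt_apply, xt_apply]
      exact hc2 n
    · exact convex_halfSpace_le (pt C).toLinearMap.isLinear _
  have h5 : xt [] ∈ AA := subset_convexHull ℝ _ ⟨[], rfl⟩
  have h6 : pt C (xt []) ≤ 1 / 2 := h4 (h3 h5)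
  rw [pt_apply, xt_apply] at h6
  have h7 : C.1 none = 1 := rfl
  rw [h7] at h6
  simp [val] at h6
  norm_num at h6

theorem AA_bounded : Bornology.IsBounded AA := by
  unfold AA
  have h1 : Bornology.IsBounded (Set.range xt) := by
    rw [isBounded_iff_forall_norm_le]
    exact ⟨2, by rintro _ ⟨J, rfl⟩; exact xt_norm J⟩
  exact isBounded_convexHull.2 h1

theorem X_not_scd : ¬ ∀ A : Set X, A.Nonempty → Convex ℝ A → Bornology.IsBounded A →
          ∃ (f : ℕ → (X →L[ℝ] ℝ)) (c : ℕ → ℝ),
            (∀ n, ∃ x ∈ A, c n < f n x) ∧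
            ∀ y : ℕ → X, (∀ n, y n ∈ A ∧ c n < f n (y n)) →
              A ⊆ closure (convexHull ℝ (Set.range y)) := fun h =>
  AA_not_scd (h AA ⟨xt [], subset_convexHull ℝ _ ⟨[], rfl⟩⟩ (convex_convexHull ℝ _) AA_bounded)

end Pool.Agent.H130R3.SCD
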