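import Pool.Agent.H130R3.SCD2
import Pool.Agent.H130R3.SCD3

set_option autoImplicit false

open Filter Topology

namespace Pool.Agent.H130R3.SCD

theorem Bs_mono (c c' : List Bool → ℝ) (h : ∀ K, |c' K| ≤ |c K|) (J : List Bool) :
    Bs c' J ≤ Bs c J := by
  induction J with
  | nil => exact le_rfl
  | cons b J ih => exact add_le_add ih (h J)

/-- restriction of a coefficient family to a finite set of coordinates -/
noncomputable def rmap (s : Finset Idx) (c : CC) : CC :=
  ⟨fun o => if o ∈ s then c.1 o else 0, by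
    have h : ∀ o, |(if o ∈ s then c.1 o else 0)| ≤ |c.1 o| := by
      intro o
      split_ifs
      · exact le_rfl
      · rw [abs_zero]; exact abs_nonneg _
    exact ⟨(h none).trans c.2.1, fun J => (Bs_mono _ _ (fun K => h (some K)) J).trans (c.2.2 J)⟩⟩

theorem rmap_continuous (s : Finset Idx) : Continuous (rmap s) := by
  apply Continuous.subtype_mk
  refine continuous_pi fun o => ?_
  by_cases h : o ∈ s
  · simp only [h, if_true]
    exact (continuous_apply o).comp continuous_subtype_val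
  · simp only [h, if_false]
    exact continuous_const

/-- restriction operator -/
noncomputable def R (s : Finset Idx) : E →L[ℝ] E :=
  LinearMap.mkContinuous
    ⟨⟨fun φ => φ.compContinuous ⟨rmap s, rmap_continuous s⟩, fun _ _ => rfl⟩, fun _ _ => rfl⟩ 1
    (fun φ => by
      rw [one_mul]
      refine (BoundedContinuousFunction.norm_le (norm_nonneg _)).2 fun c => ?_
      exact φ.norm_coe_le_norm _)

theorem R_apply (s : Finset Idx) (φ : E) (c : CC) : R s φ c = φ (rmap s c) := rfl

theorem R_norm (s : Finset Idx) (φ : E) : ‖R s φ‖ ≤ ‖φ‖ := by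
  refine (BoundedContinuousFunction.norm_le (norm_nonneg _)).2 fun c => ?_
  exact φ.norm_coe_le_norm _

theorem R_ev_mem (s : Finset Idx) (o : Idx) (h : o ∈ s) : R s (ev o) = ev o := by
  ext c
  rw [R_apply, ev_apply, ev_apply]
  show (if o ∈ s then c.1 o else 0) = c.1 o
  rw [if_pos h]

theorem R_ev_not_mem (s : Finset Idx) (o : Idx) (h : o ∉ s) : R s (ev o) = 0 := by
  ext c
  rw [R_apply, ev_apply]
  show (if o ∈ s then c.1 o else 0) = 0
  rw [if_neg h]

/-- the span of finitely many coordinates -/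
noncomputable def FS (s : Finset Idx) : Submodule ℝ E := Submodule.span ℝ (ev '' (s : Set Idx))

instance (s : Finset Idx) : FiniteDimensional ℝ (FS s) :=
  FiniteDimensional.span_of_finite ℝ ((s.finite_toSet).image ev)

/-- the same as a normed space -/
def FT (s : Finset Idx) : Type := ↥(FS s)

noncomputable instance (s : Finset Idx) : NormedAddCommGroup (FT s) :=
  inferInstanceAs (NormedAddCommGroup ↥(FS s))
noncomputable instance (s : Finset Idx) : NormedSpace ℝ (FT s) :=
  inferInstanceAs (NormedSpace ℝ ↥(FS s))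
instance (s : Finset Idx) : FiniteDimensional ℝ (FT s) :=
  inferInstanceAs (FiniteDimensional ℝ ↥(FS s))

theorem FS_le (s : Finset Idx) : FS s ≤ XS :=
  Submodule.span_le.2 (by rintro _ ⟨o, _, rfl⟩; exact ev_mem o)

theorem R_mem_FS (s : Finset Idx) (φ : E) (hφ : φ ∈ XS) : R s φ ∈ FS s := by
  have h1 : XS ≤ (FS s).comap (R s).toLinearMap := by
    apply Submodule.topologicalClosure_minimal
    · rw [Submodule.span_le]
      rintro _ ⟨o, rfl⟩
      show R s (ev o) ∈ FS s
      by_cases h : o ∈ s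
      · rw [R_ev_mem s o h]
        exact Submodule.subset_span ⟨o, h, rfl⟩
      · rw [R_ev_not_mem s o h]
        exact Submodule.zero_mem _
    · exact (Submodule.closed_of_finiteDimensional (FS s)).preimage (R s).continuous
  exact h1 hφ

theorem R_tendsto (φ : E) (hφ : φ ∈ XS) :
    Tendsto (fun s : Finset Idx => R s φ) atTop (𝓝 φ) := by
  rw [Metric.tendsto_atTop]
  intro ε hε
  have h1 : φ ∈ closure (Submodule.span ℝ (Set.range ev) : Set E) := hφ
  obtain ⟨ψ, hψ, hd⟩ := Metric.mem_closure_iff.1 h1 (ε / 2) (by positivity)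
  have h2 : ∃ s0 : Finset Idx, ∀ s, s0 ⊆ s → R s ψ = ψ := by
    classical
    refine Submodule.span_induction ?_ ?_ ?_ ?_ hψ
    · rintro _ ⟨o, rfl⟩
      exact ⟨{o}, fun s hs => R_ev_mem s o (hs (Finset.mem_singleton_self o))⟩
    · exact ⟨∅, fun s _ => map_zero _⟩
    · rintro x y _ _ ⟨s1, h1⟩ ⟨s2, h2⟩
      refine ⟨s1 ∪ s2, fun s hs => ?_⟩
      rw [map_add, h1 s (Finset.union_subset_left hs), h2 s (Finset.union_subset_right hs)]
    · rintro a x _ ⟨s1, h1⟩
      refine ⟨s1, fun s hs => ?_⟩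
      rw [map_smul, h1 s hs]
  obtain ⟨s0, hs0⟩ := h2
  refine ⟨s0, fun s hs => ?_⟩
  rw [dist_eq_norm]
  rw [dist_eq_norm] at hd
  have h3 : R s φ - φ = R s (φ - ψ) - (φ - ψ) := by
    rw [map_sub, hs0 s hs]; abel
  rw [h3]
  have h4 := norm_sub_le (R s (φ - ψ)) (φ - ψ)
  have h5 := R_norm s (φ - ψ)
  linarith

theorem R_sub (s t : Finset Idx) (hst : s ⊆ t) (φ : E) (hφ : φ ∈ XS) :
    R t φ - R s φ = R (t \ s) φ := by
  have h1 : XS ≤ LinearMap.ker (R t - R s - R (t \ s)).toLinearMap := by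
    apply Submodule.topologicalClosure_minimal
    · rw [Submodule.span_le]
      rintro _ ⟨o, rfl⟩
      show (R t - R s - R (t \ s)) (ev o) = 0
      rw [sub_apply, sub_apply]
      by_cases hs : o ∈ s
      · rw [R_ev_mem t o (hst hs), R_ev_mem s o hs, R_ev_not_mem _ o (by simp [hs])]
        simp
      · by_cases ht : o ∈ t
        · rw [R_ev_mem t o ht, R_ev_not_mem s o hs, R_ev_mem _ o (by simp [hs, ht])]
          simp
        · rw [R_ev_not_mem t o ht, R_ev_not_mem s o hs, R_ev_not_mem _ o (by simp [ht])]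
          simp
    · exact (R t - R s - R (t \ s)).isClosed_ker
  have h2 : (R t - R s - R (t \ s)) φ = 0 := h1 hφ
  rw [sub_apply, sub_apply] at h2
  exact sub_eq_zero.1 h2

/-- restriction operator into the finite dimensional space -/
noncomputable def RF (s : Finset Idx) : X →L[ℝ] (FT s) :=
  LinearMap.mkContinuous
    (⟨⟨fun x => (⟨R s (incl x), R_mem_FS s (incl x) (incl_mem x)⟩ : ↥(FS s)),
      fun x y => Subtype.ext (by simp only [map_add]; rfl)⟩,
      fun r x => Subtype.ext (by simp only [map_smul]; rfl)⟩ : X →ₗ[ℝ] (FT s)) 1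
    (fun x => by
      rw [one_mul, ← incl.norm_map x]
      exact R_norm s (incl x))

/-- inclusion of the finite dimensional space -/
noncomputable def jL (s : Finset Idx) : (FT s) →ₗ[ℝ] X :=
  Submodule.inclusion (FS_le s)

noncomputable def jF (s : Finset Idx) : (FT s) →L[ℝ] X :=
  LinearMap.toContinuousLinearMap (jL s)

/-- coordinate projection -/
noncomputable def P (s : Finset Idx) : X →L[ℝ] X := (jF s).comp (RF s)

theorem incl_P (s : Finset Idx) (x : X) : incl (P s x) = R s (incl x) := rfl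

theorem P_norm (s : Finset Idx) (x : X) : ‖P s x‖ ≤ ‖x‖ := by
  rw [← incl.norm_map, ← incl.norm_map x, incl_P]
  exact R_norm s _

theorem P_tendsto (x : X) : Tendsto (fun s : Finset Idx => P s x) atTop (𝓝 x) := by
  have h1 := R_tendsto (incl x) (incl_mem x)
  have h2 : Tendsto (fun s : Finset Idx => incl (P s x)) atTop (𝓝 (incl x)) := h1
  exact (incl.isometry.isEmbedding.tendsto_nhds_iff).2 h2

theorem P_sub (s t : Finset Idx) (hst : s ⊆ t) (x : X) : P t x - P s x = P (t \ s) x := by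
  apply incl.injective
  rw [map_sub, incl_P, incl_P, incl_P]
  exact R_sub s t hst _ (incl_mem x)

theorem no_daugavet (Y : Type) [NormedAddCommGroup Y] [NormedSpace ℝ Y] (Φ : X ≃L[ℝ] Y)
    (hDP : ∀ (f : Y →L[ℝ] ℝ) (v : Y),
      ‖ContinuousLinearMap.id ℝ Y + f.smulRight v‖ = 1 + ‖f.smulRight v‖) : False := by
  classical
  set Q : Finset Idx → Y →L[ℝ] Y := fun s =>
    ((Φ : X →L[ℝ] Y).comp (P s)).comp (Φ.symm : Y →L[ℝ] X) with hQ
  have hQa : ∀ s y, Q s y = Φ (P s (Φ.symm y)) := fun s y => rfl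
  have hbdd : BddAbove (Set.range fun s => ‖Q s‖) := by
    refine ⟨‖(Φ : X →L[ℝ] Y)‖ * ‖(Φ.symm : Y →L[ℝ] X)‖, ?_⟩
    rintro _ ⟨s, rfl⟩
    refine ContinuousLinearMap.opNorm_le_bound _ (by positivity) fun y => ?_
    rw [hQa, mul_assoc]
    refine ((Φ : X →L[ℝ] Y).le_opNorm _).trans ?_
    refine mul_le_mul_of_nonneg_left ((P_norm s _).trans ?_) (norm_nonneg _)
    exact (Φ.symm : Y →L[ℝ] X).le_opNorm y
  set α := ⨆ s, ‖Q s‖ with hα
  have hle : ∀ s, ‖Q s‖ ≤ α := fun s => le_ciSup hbdd s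
  have hα0 : 0 ≤ α := (norm_nonneg _).trans (hle ∅)
  have h1 : ∀ s, 1 + ‖Q s‖ ≤ ‖ContinuousLinearMap.id ℝ Y - Q s‖ := by
    intro s
    have h2 := dp_fin hDP ((RF s).comp (Φ.symm : Y →L[ℝ] X)) (-((Φ : X →L[ℝ] Y).comp (jF s)))
    have h3 : (-((Φ : X →L[ℝ] Y).comp (jF s))).comp ((RF s).comp (Φ.symm : Y →L[ℝ] X)) = -Q s := by
      ext y
      rfl
    rw [h3, norm_neg] at h2
    rwa [sub_eq_add_neg]
  have h2 : ∀ s, ‖ContinuousLinearMap.id ℝ Y - Q s‖ ≤ α := by
    intro s
    refine ContinuousLinearMap.opNorm_le_bound _ hα0 fun y => ?_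
    have h3 : Tendsto (fun t => ‖Q t y - Q s y‖) atTop (𝓝 ‖y - Q s y‖) := by
      have h4 : Tendsto (fun t => Q t y) atTop (𝓝 y) := by
        have h5 := (Φ.continuous.tendsto _).comp (P_tendsto (Φ.symm y))
        rw [Φ.apply_symm_apply] at h5
        exact h5
      exact (h4.sub_const _).norm
    refine le_of_tendsto h3 ?_
    filter_upwards [eventually_ge_atTop s] with t ht
    have h4 : Q t y - Q s y = Q (t \ s) y := by
      rw [hQa, hQa, hQa, ← map_sub, P_sub s t ht]
    rw [h4]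
    exact ((Q (t \ s)).le_opNorm y).trans (mul_le_mul_of_nonneg_right (hle _) (norm_nonneg _))
  have h3 : ∀ s, ‖Q s‖ ≤ α - 1 := fun s => by linarith [h1 s, h2 s]
  have h4 : α ≤ α - 1 := ciSup_le h3
  linarith

end Pool.Agent.H130R3.SCD
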